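import Pool.Agent.Helper35_TB.Stmt
import Pool.Agent.Helper87_HM.Arc

/-!
# Pointwise conservation of energy and angular momentum
-/

namespace Pool.Agent.HM.H46

open Complex Set Topology Pool.Agent.HM Filter

theorem consPt : FAR.ConsPtStmt := by
  intro m hm X t h hf
  have h1 : HasDerivWithinAt X ((1 : ℝ) • JVF m (X t)) univ t := by
    rw [one_smul]
    exact h.hasDerivWithinAt
  constructor
  · exact hasDerivWithinAt_univ.1 (H87.JE_deriv m hm 1 X univ t hf h1)
  · exact hasDerivWithinAt_univ.1 (H87.JMu_deriv m hm 1 X univ t h1)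

end Pool.Agent.HM.H46
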