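import Pool.Agent.Helper35_TB.Stmt3

/-!
# FAR: direction of the outer body relative to the binary Laplace vector
-/

namespace Pool.Agent.HM.FAR.H46

open Complex Set Topology Pool.Agent.HM Pool.Agent.HM.FAR

noncomputable section

/-- an argument is bounded by the tangent -/
theorem abs_arg_le {w : ℂ} (hw : 0 < w.re) {x : ℝ} (h : |w.im| ≤ x * w.re) : |arg w| ≤ x := by
  have h1 : |arg w| < Real.pi / 2 := abs_arg_lt_pi_div_two_iff.2 (Or.inl hw)
  have h2 : Real.tan (arg w) = w.im / w.re := tan_arg w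
  have h3 : |w.im / w.re| ≤ x := by
    rw [abs_div, abs_of_pos hw, div_le_iff₀ hw]
    exact h
  rcases le_or_gt 0 (arg w) with h4 | h4
  · rw [abs_of_nonneg h4] at h1 ⊢
    have h5 := Real.le_tan h4 h1
    rw [h2] at h5
    exact h5.trans ((le_abs_self _).trans h3)
  · rw [abs_of_neg h4] at h1 ⊢
    have h5 := Real.le_tan (by linarith : 0 ≤ -arg w) h1
    rw [Real.tan_neg, h2] at h5
    exact h5.trans ((neg_le_abs _).trans h3)

/-- `conj z * w` in terms of the scalar and the cross product -/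
theorem conj_mul_eq (z w : ℂ) : (starRingEnd ℂ) z * w = (dt z w : ℂ) + I * (cr z w : ℂ) := by
  unfold dt cr
  apply Complex.ext <;> simp

/-- the outer axis against the outer position -/
theorem outm_dir (m : Fin 3 → ℝ) (X : JS) (h0 : X.2.1 ≠ 0) (hM : mT m ≠ 0) :
    (starRingEnd ℂ) X.2.1 * outm m X = (‖X.2.1‖ : ℂ) *
      ((1 - cr X.2.1 X.2.2.2 ^ 2 / (mT m * ‖X.2.1‖) : ℝ) +
        I * (cr X.2.1 X.2.2.2 * SS X / mT m : ℝ)) := by
  have hR : (‖X.2.1‖ : ℂ) ≠ 0 := by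
    exact_mod_cast norm_ne_zero_iff.2 h0
  have hM' : (mT m : ℂ) ≠ 0 := by exact_mod_cast hM
  have h1 := conj_mul_eq X.2.1 X.2.2.2
  have h2 : (starRingEnd ℂ) X.2.1 * X.2.1 = (‖X.2.1‖ : ℂ) ^ 2 := Complex.conj_mul' _
  unfold outm SS
  rw [mul_add, ← mul_div_assoc, h2]
  have h3 : (starRingEnd ℂ) X.2.1 * (I * (cr X.2.1 X.2.2.2 : ℂ) * X.2.2.2 / (mT m : ℂ)) =
      I * (cr X.2.1 X.2.2.2 : ℂ) * ((starRingEnd ℂ) X.2.1 * X.2.2.2) / (mT m : ℂ) := by ring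
  rw [h3, h1]
  push_cast
  field_simp
  linear_combination (cr X.2.1 X.2.2.2 : ℂ) ^ 2 * Complex.I_sq

/-- geometry: direction of the outer body -/
theorem dir_geom (m : Fin 3 → ℝ) (X : JS) (h0 : X.2.1 ≠ 0) (hM : mT m ≠ 0) {w : ℂ}
    (hw : w = (1 - cr X.2.1 X.2.2.2 ^ 2 / (mT m * ‖X.2.1‖) : ℝ) +
      I * (cr X.2.1 X.2.2.2 * SS X / mT m : ℝ)) (hw0 : w ≠ 0) :
    (starRingEnd ℂ) (lrl m X) * X.2.1 = ((‖lrl m X‖ * ‖X.2.1‖ : ℝ) : ℂ) *
      exp (-(gg m X + arg w : ℝ) * I) := by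
  have hR : (‖X.2.1‖ : ℂ) ≠ 0 := by
    exact_mod_cast norm_ne_zero_iff.2 h0
  have h1 := outm_dir m X h0 hM
  rw [← hw] at h1
  set A := lrl m X with hA
  set B := outm m X with hB
  set y := X.2.1 with hy
  have hyc : (starRingEnd ℂ) y * y = (‖y‖ : ℂ) ^ 2 := Complex.conj_mul' _
  have hnB : ‖B‖ = ‖w‖ := by
    have h2 := congrArg norm h1
    rw [norm_mul, norm_mul, Complex.norm_conj, Complex.norm_real, norm_norm] at h2
    exact mul_left_cancel₀ (norm_ne_zero_iff.2 h0) h2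
  have hwe : w = (‖w‖ : ℂ) * exp (arg w * I) := (Complex.norm_mul_exp_arg_mul_I w).symm
  -- the angle `gg`
  have hAB : A * (starRingEnd ℂ) B = ((‖A‖ * ‖B‖ : ℝ) : ℂ) * exp (gg m X * I) := by
    set x := A * (starRingEnd ℂ) B * exp (-(I * gref)) with hx
    have h3 : (‖x‖ : ℂ) * exp (arg x * I) = x := Complex.norm_mul_exp_arg_mul_I x
    have h4 : ‖x‖ = ‖A‖ * ‖B‖ := by
      rw [hx, norm_mul, norm_mul, Complex.norm_conj]
      have : -(I * (gref : ℂ)) = ((-gref : ℝ) : ℂ) * I := by push_cast; ring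
      rw [this, Complex.norm_exp_ofReal_mul_I, mul_one]
    have h5 : (gg m X : ℂ) = (gref : ℂ) + (arg x : ℂ) := by
      unfold gg
      push_cast
      rfl
    have h6 : A * (starRingEnd ℂ) B = x * exp (gref * I) := by
      rw [hx, mul_assoc, ← Complex.exp_add]
      have : -(I * (gref : ℂ)) + gref * I = 0 := by ring
      rw [this, Complex.exp_zero, mul_one]
    rw [h6, ← h3, h4, h5, add_mul, Complex.exp_add]
    ring
  have hAB' : (starRingEnd ℂ) A * B = ((‖A‖ * ‖B‖ : ℝ) : ℂ) * exp (-(gg m X) * I) := by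
    have h7 := congrArg (starRingEnd ℂ) hAB
    rw [map_mul, map_mul, Complex.conj_conj, ← Complex.exp_conj, map_mul, Complex.conj_I,
      Complex.conj_ofReal, Complex.conj_ofReal] at h7
    rw [h7]
    congr 2
    ring
  -- solve
  have hwn : (‖w‖ : ℂ) ≠ 0 := by exact_mod_cast norm_ne_zero_iff.2 hw0
  have h8 : ((starRingEnd ℂ) A * y) * ((‖y‖ : ℂ) * w) =
      ((‖A‖ * ‖B‖ : ℝ) : ℂ) * exp (-(gg m X) * I) * (‖y‖ : ℂ) ^ 2 := by
    rw [← h1, ← hAB', ← hyc]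
    ring
  rw [hnB] at h8
  have h9 : exp ((-(gg m X + arg w : ℝ) : ℂ) * I) * exp (arg w * I) = exp (-(gg m X) * I) := by
    rw [← Complex.exp_add]
    congr 1
    push_cast
    ring
  have hye : (‖y‖ : ℂ) * ((‖w‖ : ℂ) * exp (arg w * I)) ≠ 0 :=
    mul_ne_zero hR (mul_ne_zero hwn (Complex.exp_ne_zero _))
  rw [hwe] at h8
  have hww : ‖(‖w‖ : ℂ) * exp (arg w * I)‖ = ‖w‖ := by rw [← hwe]
  apply mul_right_cancel₀ hye
  rw [hww] at h8
  rw [h8, ← h9]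
  push_cast
  ring

/-- bounds of the masses -/
structure MB (m : Fin 3 → ℝ) : Prop where
  p0 : 0 < m 0
  p1 : 0 < m 1
  p2 : 0 < m 2
  M1 : 2.99999 ≤ mT m
  M2 : mT m ≤ 3.00001
  k10 : 0 < k1 m
  k1' : k1 m ≤ 0.50001
  k11 : 0.4999 ≤ k1 m
  k20 : 0.66666 ≤ k2 m
  k21 : k2 m ≤ 0.6667

theorem mB {m : Fin 3 → ℝ} (hm : NearF m) : MB m := by
  obtain ⟨a1, a2⟩ := abs_lt.1 (hm 0)
  obtain ⟨b1, b2⟩ := abs_lt.1 (hm 1)
  obtain ⟨c1, c2⟩ := abs_lt.1 (hm 2)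
  norm_num at a1 a2 b1 b2 c1 c2
  have h0 : 0 < m 0 := by linarith
  have h1 : 0 < m 1 := by linarith
  have h2 : 0 < m 2 := by linarith
  have h01 : 0 < m 0 + m 1 := by linarith
  have hM : 0 < m 0 + m 1 + m 2 := by linarith
  have e1 : m 0 * m 1 ≤ 1.000001 * 1.000001 :=
    mul_le_mul (by norm_num; linarith) (by norm_num; linarith) h1.le (by norm_num)
  have e2 : (0.999999 * 0.999999 : ℝ) ≤ m 0 * m 1 :=
    mul_le_mul (by norm_num; linarith) (by norm_num; linarith) (by norm_num) h0.le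
  have e3 : m 2 * (m 0 + m 1) ≤ 1.000001 * 2.000002 :=
    mul_le_mul (by norm_num; linarith) (by norm_num; linarith) h01.le (by norm_num)
  have e4 : (0.999999 * 1.999998 : ℝ) ≤ m 2 * (m 0 + m 1) :=
    mul_le_mul (by norm_num; linarith) (by norm_num; linarith) (by norm_num) h2.le
  norm_num at e1 e2 e3 e4
  refine ⟨h0, h1, h2, ?_, ?_, ?_, ?_, ?_, ?_, ?_⟩
  · unfold mT
    norm_num
    linarith
  · unfold mT
    norm_num
    linarith
  · unfold k1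
    positivity
  · unfold k1
    rw [div_le_iff₀ h01]
    norm_num
    linarith
  · unfold k1
    rw [le_div_iff₀ h01]
    norm_num
    linarith
  · unfold k2
    rw [le_div_iff₀ hM]
    norm_num
    linarith
  · unfold k2
    rw [div_le_iff₀ hM]
    norm_num
    linarith

/-- the outer angular momentum -/
theorem H_le {m : Fin 3 → ℝ} (hm : MB m) {X : JS} (hJ : JMu m X = 0) {l : ℝ}
    (hl : |cr X.1 X.2.2.1| ≤ l) : |cr X.2.1 X.2.2.2| ≤ 0.75003 * l := by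
  unfold JMu at hJ
  have h1 : k2 m * cr X.2.1 X.2.2.2 = -(k1 m * cr X.1 X.2.2.1) := by linarith
  have h2 : k2 m * |cr X.2.1 X.2.2.2| = k1 m * |cr X.1 X.2.2.1| := by
    have h3 := congrArg abs h1
    rw [abs_neg, abs_mul, abs_mul, abs_of_pos hm.k10,
      abs_of_pos (show 0 < k2 m by have := hm.k20; norm_num at this; linarith)] at h3
    exact h3
  have h4 : 0.66666 * |cr X.2.1 X.2.2.2| ≤ k2 m * |cr X.2.1 X.2.2.2| :=
    mul_le_mul_of_nonneg_right hm.k20 (abs_nonneg _)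
  have h5 : k1 m * |cr X.1 X.2.2.1| ≤ 0.50001 * l :=
    mul_le_mul hm.k1' hl (abs_nonneg _) (by norm_num)
  have h6 : 0 ≤ l := (abs_nonneg _).trans hl
  norm_num at h4 h5 ⊢
  linarith

/-- the Laplace vector is nonzero -/
theorem lrl_ne (hB : BridgeStmt) {m : Fin 3 → ℝ} (hm' : NearF m) {X : JS} (hX : RegA m X) :
    lrl m X ≠ 0 := by
  have hm := mB hm'
  obtain ⟨g1, g2, g3, g4, g5⟩ := hX.good
  have hx0 : X.1 ≠ 0 := by
    rw [← norm_pos_iff]
    linarith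
  have hy0 : X.2.1 ≠ 0 := by
    rw [← norm_pos_iff]
    linarith
  obtain ⟨_, hcr, _, _, _, _, _, _, hA, _, _⟩ := hB m hm' X hx0 hy0
  have h01 : 0 < m 0 + m 1 := add_pos hm.p0 hm.p1
  have h1 := Helper35TB.norm_lap_sq (m 0 + m 1) X.1 X.2.2.1 hx0 h01.ne'
  rw [← hA, ← hcr] at h1
  have hE := hX.lev.2.1
  unfold JE at hE
  have hx : 0 < ‖X.1‖ := norm_pos_iff.2 hx0
  have t1 : 0 ≤ m 0 * m 2 / ‖vA m X.1 X.2.1‖ := by
    have := hm.p0; have := hm.p2
    positivity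
  have t2 : 0 ≤ m 1 * m 2 / ‖vB m X.1 X.2.1‖ := by
    have := hm.p1; have := hm.p2
    positivity
  have t3 : k2 m / 2 * ‖X.2.2.2‖ ^ 2 ≤ 0.6667 / 2 * 2 ^ 2 :=
    mul_le_mul (by linarith [hm.k21]) (pow_le_pow_left₀ (norm_nonneg _) g5.le 2) (by positivity)
      (by norm_num)
  have t4 : k1 m * (‖X.2.2.1‖ ^ 2 / 2 - (m 0 + m 1) / ‖X.1‖) =
      k1 m / 2 * ‖X.2.2.1‖ ^ 2 - m 0 * m 1 / ‖X.1‖ := by
    unfold k1
    field_simp
  set hb' := ‖X.2.2.1‖ ^ 2 / 2 - (m 0 + m 1) / ‖X.1‖ with hhb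
  have t5 : -2.4 ≤ k1 m * hb' := by
    rw [t4]
    norm_num at t3 ⊢
    linarith
  have t6 : -5 ≤ hb' := by
    by_contra hcon
    push Not at hcon
    have h2 : k1 m * hb' ≤ k1 m * (-5) := mul_le_mul_of_nonneg_left hcon.le hm.k10.le
    have := hm.k11
    norm_num at t5 this
    linarith
  have t7 : cr X.1 X.2.2.1 ^ 2 / (m 0 + m 1) ^ 2 ≤ 0.01 := by
    rw [div_le_iff₀ (by positivity), ← sq_abs]
    have h3 : |cr X.1 X.2.2.1| ^ 2 ≤ 0.109 ^ 2 := pow_le_pow_left₀ (abs_nonneg _) hX.L2 2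
    have h4 : (1.9 : ℝ) ≤ m 0 + m 1 := by
      have := hm.M1
      have h5 := abs_lt.1 (hm' 2)
      unfold mT at this
      norm_num at this h5 ⊢
      linarith [h5.2]
    have h6 := pow_le_pow_left₀ (by norm_num) h4 2
    norm_num at h3 h6 ⊢
    linarith
  have t8 : 0 ≤ cr X.1 X.2.2.1 ^ 2 / (m 0 + m 1) ^ 2 := by positivity
  have h9 : 2 * hb' * cr X.1 X.2.2.1 ^ 2 / (m 0 + m 1) ^ 2 =
      2 * hb' * (cr X.1 X.2.2.1 ^ 2 / (m 0 + m 1) ^ 2) := by ring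
  intro h0
  rw [h0, norm_zero, h9] at h1
  have h10 : -10 * (cr X.1 X.2.2.1 ^ 2 / (m 0 + m 1) ^ 2) ≤
      2 * hb' * (cr X.1 X.2.2.1 ^ 2 / (m 0 + m 1) ^ 2) :=
    mul_le_mul_of_nonneg_right (by linarith) t8
  norm_num at h1 t7
  linarith

theorem re_aux (a b : ℝ) : ((a : ℂ) + I * (b : ℂ)).re = a := by simp
theorem im_aux (a b : ℝ) : ((a : ℂ) + I * (b : ℂ)).im = b := by simp
theorem re_aux2 (N a b : ℝ) : ((N : ℂ) * ((a : ℂ) - (b : ℂ) * I)).re = N * a := by simp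
theorem im_aux2 (N a b : ℝ) : ((N : ℂ) * ((a : ℂ) - (b : ℂ) * I)).im = -(N * b) := by simp

theorem dir (hB : BridgeStmt) : DirStmt := by
  intro m hm' X hX l δ hl hl1 hδ hδ1
  have hm := mB hm'
  obtain ⟨g1, g2, g3, g4, g5⟩ := hX.good
  have hy : 0 < ‖X.2.1‖ := by linarith
  have hy0 : X.2.1 ≠ 0 := norm_pos_iff.1 hy
  have hMp : 0 < mT m := by have := hm.M1; norm_num at this; linarith
  have hH := H_le hm hX.lev.2.2 hl
  have hl0 : 0 ≤ l := (abs_nonneg _).trans hl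
  have hδ0 : 0 ≤ δ := (abs_nonneg _).trans hδ
  set H := cr X.2.1 X.2.2.2 with hHdef
  set w : ℂ := (1 - H ^ 2 / (mT m * ‖X.2.1‖) : ℝ) + I * (H * SS X / mT m : ℝ) with hw
  have wre : w.re = 1 - H ^ 2 / (mT m * ‖X.2.1‖) := by rw [hw, re_aux]
  have wim : w.im = H * SS X / mT m := by rw [hw, im_aux]
  have hp : 0.9999 ≤ w.re := by
    rw [wre]
    have h1 : H ^ 2 / (mT m * ‖X.2.1‖) ≤ 0.0001 := by
      rw [div_le_iff₀ (mul_pos hMp hy), ← sq_abs]
      have h2 : |H| ≤ 0.75003 * 0.11 :=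
        hH.trans (mul_le_mul_of_nonneg_left hl1 (by norm_num))
      have h3 := pow_le_pow_left₀ (abs_nonneg _) h2 2
      have h4 : (2.99999 * 23.3 : ℝ) ≤ mT m * ‖X.2.1‖ :=
        mul_le_mul hm.M1 hX.R1 (by norm_num) hMp.le
      norm_num at h3 h4 ⊢
      linarith
    norm_num at h1 ⊢
    linarith
  have hp0 : 0 < w.re := by norm_num at hp; linarith
  have hq : |w.im| ≤ 0.1264 * l * w.re := by
    have h1 : |w.im| ≤ 0.12626 * l := by
      rw [wim, abs_div, abs_of_pos hMp, div_le_iff₀ hMp, abs_mul]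
      have h2 : |H| * |SS X| ≤ 0.75003 * l * 0.505 :=
        mul_le_mul hH hX.S (abs_nonneg _) (by positivity)
      have h3 : 0.12626 * l * 2.99999 ≤ 0.12626 * l * mT m :=
        mul_le_mul_of_nonneg_left hm.M1 (by positivity)
      norm_num at h2 h3 ⊢
      linarith
    have h4 : 0.1264 * l * 0.9999 ≤ 0.1264 * l * w.re :=
      mul_le_mul_of_nonneg_left hp (by positivity)
    norm_num at h1 h4 ⊢
    linarith
  have hβ := abs_arg_le hp0 hq
  have hw0 : w ≠ 0 := by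
    intro h
    rw [h] at hp0
    simp at hp0
  have hZ := dir_geom m X hy0 hMp.ne' hw hw0
  set ψ : ℝ := gg m X + arg w with hψ
  set φ : ℝ := 3 * Real.pi / 2 - ψ with hφ
  have pi1 := Real.pi_gt_d6
  have pi2 := Real.pi_lt_d6
  obtain ⟨b1, b2⟩ := abs_le.1 hβ
  obtain ⟨d1, d2⟩ := abs_le.1 hδ
  have hgref : gref = 4.614 := rfl
  rw [hgref] at d1 d2
  have f1 : 0.098388 - 0.1264 * l - δ ≤ φ := by
    rw [hφ, hψ]
    norm_num at d1 d2 pi1 pi2 b1 b2 ⊢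
    linarith
  have f2 : φ ≤ 0.0984 + 0.1264 * l + δ := by
    rw [hφ, hψ]
    norm_num at d1 d2 pi1 pi2 b1 b2 ⊢
    linarith
  have f0 : 0 < 0.098388 - 0.1264 * l - δ := by
    norm_num at hl1 hδ1 ⊢
    linarith
  have f3 : 0 < φ := lt_of_lt_of_le f0 f1
  have f4 : φ < Real.pi / 2 := by
    norm_num at f2 pi1 hl1 hδ1 ⊢
    linarith
  have s1 : Real.sin φ ≤ 0.0984 + 0.1264 * l + δ := (Real.sin_le f3.le).trans f2
  have s2 : 0.0982 - 0.1264 * l - δ ≤ Real.sin φ := by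
    have h1 : Real.sin (0.098388 - 0.1264 * l - δ) ≤ Real.sin φ :=
      Real.sin_le_sin_of_le_of_le_pi_div_two (by linarith [Real.pi_pos]) f4.le f1
    have h2 := Real.sin_gt_sub_cube f0
    have h3 : 0.098388 - 0.1264 * l - δ ≤ 0.0984 := by
      norm_num
      linarith
    have h4 := pow_le_pow_left₀ f0.le h3 3
    norm_num at h1 h2 h4 ⊢
    linarith
  have s3 : 0 < Real.sin φ := Real.sin_pos_of_pos_of_lt_pi f3 (by linarith [Real.pi_pos])
  have c3 : 0 < Real.cos φ := Real.cos_pos_of_mem_Ioo ⟨by linarith [Real.pi_pos], f4⟩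
  have eψ : ψ = 3 * Real.pi / 2 - φ := by rw [hφ]; ring
  have cψ : Real.cos ψ = -Real.sin φ := by
    have : ψ = (Real.pi / 2 - φ) + Real.pi := by rw [eψ]; ring
    rw [this, Real.cos_add_pi, Real.cos_pi_div_two_sub]
  have sψ : Real.sin ψ = -Real.cos φ := by
    have : ψ = (Real.pi / 2 - φ) + Real.pi := by rw [eψ]; ring
    rw [this, Real.sin_add_pi, Real.sin_pi_div_two_sub]
  set N : ℝ := ‖lrl m X‖ * ‖X.2.1‖ with hN
  have hN0 : 0 < N := mul_pos (norm_pos_iff.2 (lrl_ne hB hm' hX)) hy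
  have hexp : exp ((-(ψ : ℝ) : ℂ) * I) = (Real.cos ψ : ℂ) - (Real.sin ψ : ℂ) * I := by
    rw [Complex.exp_mul_I, Complex.cos_neg, Complex.sin_neg]
    push_cast
    ring
  rw [hexp] at hZ
  have hdt : dt (lrl m X) X.2.1 = -(N * Real.sin φ) := by
    have h1 := congrArg Complex.re hZ
    have h2 : ((starRingEnd ℂ) (lrl m X) * X.2.1).re = dt (lrl m X) X.2.1 := rfl
    rw [h2, re_aux2] at h1
    rw [h1, cψ]
    ring
  have hcr : cr (lrl m X) X.2.1 = N * Real.cos φ := by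
    have h1 := congrArg Complex.im hZ
    have h2 : ((starRingEnd ℂ) (lrl m X) * X.2.1).im = cr (lrl m X) X.2.1 := rfl
    rw [h2, im_aux2] at h1
    rw [h1, sψ]
    ring
  refine ⟨?_, ?_, ?_⟩
  · rw [hdt, abs_neg, abs_of_pos (mul_pos hN0 s3), mul_comm]
    exact mul_le_mul_of_nonneg_right s1 hN0.le
  · rw [hdt, abs_neg, abs_of_pos (mul_pos hN0 s3), mul_comm N]
    exact mul_le_mul_of_nonneg_right s2 hN0.le
  · rw [hdt, hcr]
    have := mul_pos (mul_pos hN0 s3) (mul_pos hN0 c3)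
    linarith

end

end Pool.Agent.HM.FAR.H46
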