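import Pool.Agent.Helper35_TB.Stmt

/-!
# Continuity of the truncated hitting time
-/

namespace Pool.Agent.HM.H46

open Complex Set Topology Pool.Agent.HM Filter

noncomputable section

/-- times up to which `f` is nonnegative -/
def goodT (f : ℝ → ℝ) (M : ℝ) : Set ℝ := {t | t ∈ Icc (0 : ℝ) M ∧ ∀ s ∈ Icc (0 : ℝ) t, 0 ≤ f s}

theorem goodT_zero {f : ℝ → ℝ} {M : ℝ} (hM : 0 < M) (h0 : 0 < f 0) : (0 : ℝ) ∈ goodT f M := by
  refine ⟨⟨le_refl _, hM.le⟩, fun s hs => ?_⟩
  have : s = 0 := le_antisymm hs.2 hs.1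
  rw [this]
  exact h0.le

theorem goodT_bdd (f : ℝ → ℝ) (M : ℝ) : BddAbove (goodT f M) := ⟨M, fun _ h => h.1.2⟩

/-- the last good time -/
def lastT (f : ℝ → ℝ) (M : ℝ) : ℝ := sSup (goodT f M)

theorem lastT_mem {f : ℝ → ℝ} {M : ℝ} (hM : 0 < M) (h0 : 0 < f 0) (hc : Continuous f) :
    lastT f M ∈ goodT f M := by
  have hne : (goodT f M).Nonempty := ⟨0, goodT_zero hM h0⟩
  have h1 : lastT f M ≤ M := csSup_le hne fun t ht => ht.1.2
  have h2 : 0 ≤ lastT f M := le_csSup (goodT_bdd f M) (goodT_zero hM h0)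
  refine ⟨⟨h2, h1⟩, fun s hs => ?_⟩
  rcases eq_or_lt_of_le hs.2 with h | h
  · -- the point itself: limit
    by_contra hneg
    push Not at hneg
    rw [h] at hneg
    have h3 : ∀ᶠ r in 𝓝 (lastT f M), f r < 0 := hc.continuousAt.eventually_lt_const hneg
    obtain ⟨l, hl, hl'⟩ := exists_Ioc_subset_of_mem_nhds h3 ⟨lastT f M - 1, by linarith⟩
    obtain ⟨t, ht, hlt⟩ := exists_lt_of_lt_csSup hne hl
    have ht' : t ≤ lastT f M := le_csSup (goodT_bdd f M) ht
    have h4 : f t < 0 := hl' ⟨hlt, ht'⟩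
    exact absurd (ht.2 t ⟨ht.1.1, le_refl _⟩) (not_le.2 h4)
  · obtain ⟨t, ht, hlt⟩ := exists_lt_of_lt_csSup hne h
    exact ht.2 s ⟨hs.1, hlt.le⟩

theorem hit : FAR.HitStmt := by
  intro α _ g g' M hM hg h0 hd
  have hc : ∀ a, Continuous (g a) := fun a => hg.comp (Continuous.prodMk_right a)
  have hmem : ∀ a, lastT (g a) M ∈ goodT (g a) M := fun a => lastT_mem hM (h0 a) (hc a)
  -- strictly decreasing up to the last time
  have hanti : ∀ a, StrictAntiOn (g a) (Icc 0 (lastT (g a) M)) := by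
    intro a
    refine strictAntiOn_of_deriv_neg (convex_Icc _ _) (hc a).continuousOn fun t ht => ?_
    have ht1 : t ∈ Icc 0 (lastT (g a) M) := interior_subset ht
    have h1 := hd a t ⟨ht1.1, ht1.2.trans (hmem a).1.2⟩
      fun s hs => (hmem a).2 s ⟨hs.1, hs.2.trans ht1.2⟩
    rw [h1.1.deriv]
    exact h1.2
  have hpos : ∀ a, ∀ s ∈ Ico 0 (lastT (g a) M), 0 < g a s := by
    intro a s hs
    have h1 := hanti a ⟨hs.1, hs.2.le⟩ ⟨hs.1.trans hs.2.le, le_refl _⟩ hs.2
    exact lt_of_le_of_lt ((hmem a).2 _ ⟨(hmem a).1.1, le_refl _⟩) h1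
  have hge : ∀ a t, t ∈ Icc (0 : ℝ) M → (∀ s ∈ Icc (0 : ℝ) t, 0 ≤ g a s) → t ≤ lastT (g a) M :=
    fun a t ht h => le_csSup (goodT_bdd _ _) ⟨ht, h⟩
  have hend : ∀ a, lastT (g a) M < M → g a (lastT (g a) M) = 0 := by
    intro a ha
    have h1 : 0 ≤ g a (lastT (g a) M) := (hmem a).2 _ ⟨(hmem a).1.1, le_refl _⟩
    rcases eq_or_lt_of_le h1 with h | h
    · exact h.symm
    · exfalso
      have h3 : ∀ᶠ r in 𝓝 (lastT (g a) M), 0 < g a r := (hc a).continuousAt.eventually_const_lt h
      obtain ⟨u, hu, hu'⟩ := exists_Ico_subset_of_mem_nhds h3 ⟨lastT (g a) M + 1, by linarith⟩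
      set t := (lastT (g a) M + min u M) / 2 with ht
      have hmin : lastT (g a) M < min u M := lt_min hu ha
      have h4 : t ≤ lastT (g a) M := by
        apply hge a t
        · constructor
          · have := (hmem a).1.1
            have := lt_of_le_of_lt this hmin
            have := (hmem a).1.1
            rw [ht]
            linarith
          · have := min_le_right u M
            rw [ht]
            linarith
        · intro s hs
          rcases le_or_gt s (lastT (g a) M) with h5 | h5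
          · exact (hmem a).2 s ⟨hs.1, h5⟩
          · have h6 : 0 < g a s := hu' ⟨h5.le, by
              have := min_le_left u M
              have := hs.2
              rw [ht] at this
              linarith⟩
            exact h6.le
      rw [ht] at h4
      linarith
  have hτpos : ∀ a, 0 < lastT (g a) M := by
    intro a
    rcases eq_or_lt_of_le (hmem a).1.1 with h | h
    · exfalso
      have := hend a (by rw [← h]; exact hM)
      rw [← h] at this
      exact absurd this (h0 a).ne'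
    · exact h
  refine ⟨fun a => lastT (g a) M, ?_, fun a => ⟨hτpos a, (hmem a).1.2, hpos a,
    (hmem a).2 _ ⟨(hmem a).1.1, le_refl _⟩, hend a⟩⟩
  rw [continuous_iff_continuousAt]
  intro a₀
  unfold ContinuousAt
  rw [tendsto_order]
  constructor
  · intro t₀ ht₀
    -- lower bound
    set t₁ := (max t₀ 0 + lastT (g a₀) M) / 2 with ht₁
    have hmax : max t₀ 0 < lastT (g a₀) M := max_lt ht₀ (hτpos a₀)
    have h1 : t₀ < t₁ := by
      have := le_max_left t₀ 0
      rw [ht₁]
      linarith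
    have h2 : 0 ≤ t₁ := by
      have := le_max_right t₀ 0
      have := hτpos a₀
      rw [ht₁]
      linarith
    have h3 : t₁ < lastT (g a₀) M := by
      rw [ht₁]
      linarith
    have h4 : ∀ᶠ a in 𝓝 a₀, ∀ s ∈ Icc 0 t₁, 0 < g a s := by
      apply IsCompact.eventually_forall_of_forall_eventually isCompact_Icc
      intro s hs
      have h5 : 0 < g a₀ s := hpos a₀ s ⟨hs.1, lt_of_le_of_lt hs.2 h3⟩
      exact hg.continuousAt.eventually_const_lt h5
    filter_upwards [h4] with a ha
    refine lt_of_lt_of_le h1 (hge a t₁ ⟨h2, h3.le.trans (hmem a₀).1.2⟩ fun s hs => (ha s hs).le)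
  · intro t₀ ht₀'
    have ht₀ : lastT (g a₀) M < t₀ := ht₀'
    rcases eq_or_lt_of_le (hmem a₀).1.2 with h | h
    · exact Filter.Eventually.of_forall fun a => lt_of_le_of_lt (hmem a).1.2 (by
        rw [h] at ht₀
        exact ht₀)
    · have hz := hend a₀ h
      have hdn := hd a₀ (lastT (g a₀) M) (hmem a₀).1 (hmem a₀).2
      have h1 : ∀ᶠ r in 𝓝[>] (lastT (g a₀) M), g a₀ r < g a₀ (lastT (g a₀) M) := by
        have := hdn.1.hasDerivWithinAt (s := Ioi (lastT (g a₀) M))
        have h2 : ∀ᶠ r in 𝓝[>] (lastT (g a₀) M), slope (g a₀) (lastT (g a₀) M) r < 0 := by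
          have h3 := (hasDerivWithinAt_iff_tendsto_slope' (by simp)).1 this
          exact h3.eventually_lt_const hdn.2
        filter_upwards [h2, self_mem_nhdsWithin] with r hr hr'
        rw [slope_def_field] at hr
        have h4 : 0 < r - lastT (g a₀) M := sub_pos.2 hr'
        have h5 := (div_neg_iff.1 hr)
        rcases h5 with h5 | h5
        · linarith [h5.2]
        · linarith [h5.1]
      have h2 : ∀ᶠ r in 𝓝[>] (lastT (g a₀) M), r < t₀ :=
        nhdsWithin_le_nhds (eventually_lt_nhds ht₀)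
      obtain ⟨r, hr1, hr2, hr3⟩ := (h1.and (h2.and self_mem_nhdsWithin)).exists
      rw [hz] at hr1
      have h3 : ∀ᶠ a in 𝓝 a₀, g a r < 0 :=
        (hg.comp (Continuous.prodMk_left r)).continuousAt.eventually_lt_const hr1
      filter_upwards [h3] with a ha
      refine lt_of_le_of_lt ?_ hr2
      by_contra hlt
      push Not at hlt
      have hr0 : 0 ≤ r := (hτpos a₀).le.trans (le_of_lt hr3)
      exact absurd ((hmem a).2 r ⟨hr0, hlt.le⟩) (not_le.2 ha)

end

end Pool.Agent.HM.H46
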