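import Pool.Agent.Helper46_HM.Ineq2Z

/-!
# FAR: the second real inequality (part B)
-/

namespace Pool.Agent.HM.H46

open Pool.Agent.HM.FAR

/-- product with a factor in an interval -/
theorem mix {al a1 a2 P M x : ℝ} (h1 : a1 ≤ al) (h2 : al ≤ a2) (h0 : 0 ≤ al) (hP : 0 ≤ P)
    (hM : 0 ≤ M) (h : P - M ≤ x) : a1 * P - a2 * M ≤ al * x := by
  have h3 := mul_le_mul_of_nonneg_right h1 hP
  have h4 := mul_le_mul_of_nonneg_right h2 hM
  have h5 := mul_le_mul_of_nonneg_left h h0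
  rw [mul_sub] at h5
  linarith

theorem end_ub {r t al be q X1 X2 X3 : ℝ} (hr : 0 < r) (ht0 : 0 ≤ t)
    (hs : t ^ 2 ≤ 4.00002 * r - 3.996 * r ^ 2 - 0.0078) (hal : |al| ≤ 1.5379)
    (hbe : |be| ≤ 0.05082) (hq : |q| ≤ 0.38483)
    (h1 : |X1| ≤ 0.11654 * (r * t) + 0.00119 * t + 0.0497 * t ^ 2)
    (h2 : |X2| ≤ 0.99647 * r + 0.01767 * t)
    (h3 : |X3| ≤ 0.11654 * r ^ 2 + 0.000295 * t ^ 2 + 0.0497 * (r * t)) :
    al * X1 + be * X2 + q * X3 ≤ 0.2619 := by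
  have e1 := (le_abs_self _).trans (abs_mul_le hal h1)
  have e2 := (le_abs_self _).trans (abs_mul_le hbe h2)
  have e3 := (le_abs_self _).trans (abs_mul_le hq h3)
  have e4 := pol_ub r t ht0 hs
  have e5 := mul_nonneg hr.le ht0
  have e6 := sq_nonneg t
  have e7 := sq_nonneg r
  norm_num at e1 e2 e3 e4 ⊢
  linarith

theorem end_lb1 {r t al be q X1 X2 X3 : ℝ} (hr : 0 < r) (ht0 : 0 ≤ t)
    (hs : t ^ 2 ≤ 4.00002 * r - 3.996 * r ^ 2 - 0.0078) (ha1 : 1.5167 ≤ al) (ha2 : al ≤ 1.5379)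
    (hb1 : 0.04454 ≤ be) (hb2 : be ≤ 0.05082) (hq : |q| ≤ 0.38483)
    (h1 : 0.04297 * t ^ 2 - (0.11654 * (r * t) + 0.00101) ≤ X1)
    (h2 : 0.9435 * r - 0.00506 ≤ X2)
    (h3 : 0.04297 * (r * t) - (0.11654 * r ^ 2 + 0.00026) ≤ X3)
    (h3' : X3 ≤ 0.000295 * t ^ 2 + 0.0497 * (r * t)) :
    -0.0744 ≤ al * X1 + be * X2 + q * X3 := by
  have e5 := mul_nonneg hr.le ht0
  have e6 := sq_nonneg t
  have e7 := sq_nonneg r
  have e1 := mix ha1 ha2 (by linarith) (by positivity) (by positivity) h1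
  have e2 := mix hb1 hb2 (by linarith) (by positivity) (by norm_num) h2
  obtain ⟨q1, q2⟩ := abs_le.1 hq
  have p1 := pol_lb1 r t hs
  have p2 := pol_lb2 r t hs
  rcases le_or_gt 0 q with hq0 | hq0
  · rcases le_or_gt 0 X3 with hx | hx
    · have e3 := mul_nonneg hq0 hx
      norm_num at e1 e2 p2 ⊢
      linarith
    · have e3 : 0.38483 * X3 ≤ q * X3 := mul_le_mul_of_nonpos_right q2 hx.le
      norm_num at e1 e2 e3 p1 h3 ⊢
      linarith
  · rcases le_or_gt 0 X3 with hx | hx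
    · have e3 : -0.38483 * X3 ≤ q * X3 := mul_le_mul_of_nonneg_right q1 hx
      norm_num at e1 e2 e3 p2 h3' ⊢
      linarith
    · have e3 := mul_nonneg_of_nonpos_of_nonpos hq0.le hx.le
      norm_num at e1 e2 p2 ⊢
      linarith

theorem end_lb2 {r t al be q X1 X2 X3 : ℝ} (hr : 0 < r) (ht0 : 0 ≤ t)
    (hs : t ^ 2 ≤ 4.00002 * r - 3.996 * r ^ 2 - 0.0078) (ha1 : 1.5167 ≤ al) (ha2 : al ≤ 1.5379)
    (hb1 : 0.04454 ≤ be) (hb2 : be ≤ 0.05082) (hq : |q| ≤ 0.38483)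
    (h1 : (0.07875 * (r * t) + 0.04297 * t ^ 2) - (0.00239 * t + 0.00101) ≤ X1)
    (h2 : 0.9435 * r - (0.00506 + 0.01767 * t) ≤ X2)
    (h3 : |X3| ≤ 0.11654 * r ^ 2 + 0.000295 * t ^ 2 + 0.0497 * (r * t)) :
    -0.0744 ≤ al * X1 + be * X2 + q * X3 := by
  have e5 := mul_nonneg hr.le ht0
  have e6 := sq_nonneg t
  have e7 := sq_nonneg r
  have e1 := mix ha1 ha2 (by linarith) (by positivity) (by positivity) h1
  have e2 := mix hb1 hb2 (by linarith) (by positivity) (by positivity) h2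
  have e3 := (neg_abs_le (q * X3))
  have e4 := (abs_mul_le hq h3)
  have p3 := pol_lb3 r t hr ht0 hs
  norm_num at e1 e2 p3 ⊢
  rw [abs_mul] at e4 e3
  norm_num at e4
  linarith

set_option maxHeartbeats 2000000 in
/-- bounds for the parts -/
theorem parts {r s l g K δ w k : ℝ} (hr0 : 0 < r)
    (hs : s ^ 2 ≤ 4.00002 * r - 3.996 * r ^ 2 - 0.0078)
    (hl1 : 0.0884 ≤ l) (hl2 : l ≤ 0.1006) (hg1 : 0.04419 ≤ g) (hg2 : g ≤ 0.05031)
    (hlg : l * g ≤ 2.0001 * r) (hK1 : 0.07875 ≤ K) (hK2 : K ≤ 0.1165) (hδ1 : 0.97248 ≤ δ)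
    (hδ2 : δ ≤ 0.98752) (hw1 : 0.9435 ≤ w) (hw2 : w ≤ 0.99637)
    (hk1 : 0 ≤ k) (hk2 : k ≤ 3.0135) :
    |-K * ((r - l * g) ^ 2 / r) * s + K * ((g * s) ^ 2 / r) * s +
        g * δ * ((r - l * g) * s ^ 2 / r)| ≤
      0.11654 * (r * |s|) + 0.00119 * |s| + 0.0497 * |s| ^ 2 ∧
    |w * (r - l * g) + k * (K * (g * s))| ≤ 0.99647 * r + 0.01767 * |s| ∧
    |-K * ((r - l * g) ^ 2 - (g * s) ^ 2) + g * δ * ((r - l * g) * s)| ≤
      0.11654 * r ^ 2 + 0.000295 * |s| ^ 2 + 0.0497 * (r * |s|) ∧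
    (0 ≤ s → 0.04297 * |s| ^ 2 - (0.11654 * (r * |s|) + 0.00101) ≤
        -K * ((r - l * g) ^ 2 / r) * s + K * ((g * s) ^ 2 / r) * s +
        g * δ * ((r - l * g) * s ^ 2 / r) ∧
      0.9435 * r - 0.00506 ≤ w * (r - l * g) + k * (K * (g * s)) ∧
      0.04297 * (r * |s|) - (0.11654 * r ^ 2 + 0.00026) ≤
        -K * ((r - l * g) ^ 2 - (g * s) ^ 2) + g * δ * ((r - l * g) * s) ∧
      -K * ((r - l * g) ^ 2 - (g * s) ^ 2) + g * δ * ((r - l * g) * s) ≤
        0.000295 * |s| ^ 2 + 0.0497 * (r * |s|)) ∧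
    (s < 0 → (0.07875 * (r * |s|) + 0.04297 * |s| ^ 2) - (0.00239 * |s| + 0.00101) ≤
        -K * ((r - l * g) ^ 2 / r) * s + K * ((g * s) ^ 2 / r) * s +
        g * δ * ((r - l * g) * s ^ 2 / r) ∧
      0.9435 * r - (0.00506 + 0.01767 * |s|) ≤ w * (r - l * g) + k * (K * (g * s))) := by
  have hrn := hr0.le
  have hK0 : 0 ≤ K := by linarith
  have hg0 : 0 ≤ g := by linarith
  have hl0 : 0 ≤ l := by linarith
  have hδ0 : 0 ≤ δ := by linarith
  have hw0 : 0 ≤ w := by linarith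
  set t : ℝ := |s| with ht
  have ht0 : 0 ≤ t := abs_nonneg s
  have hts : t ^ 2 = s ^ 2 := sq_abs s
  have ht1 : t ≤ 1 := by
    rw [ht, ← sq_le_one_iff_abs_le_one]
    have := sq_nonneg (r - 0.50051)
    linarith
  have hs4 : t ^ 2 ≤ 4.00002 * r := by
    rw [hts]
    have := sq_nonneg r
    linarith
  have hs' : t ^ 2 ≤ 4.00002 * r - 3.996 * r ^ 2 - 0.0078 := by
    rw [hts]
    exact hs
  -- `l g`
  have lg0 : 0 ≤ l * g := mul_nonneg hl0 hg0
  have lg1 : l * g ≤ 0.00507 := by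
    have := mul_le_mul hl2 hg2 hg0 (by norm_num : (0 : ℝ) ≤ 0.1006)
    norm_num at this ⊢
    linarith
  -- `g δ`
  have gd0 : 0 ≤ g * δ := mul_nonneg hg0 hδ0
  have gd1 : 0.04297 ≤ g * δ := by
    have := mul_le_mul hg1 hδ1 (by norm_num : (0 : ℝ) ≤ 0.97248) hg0
    norm_num at this ⊢
    linarith
  have gd2 : g * δ ≤ 0.04969 := by
    have := mul_le_mul hg2 hδ2 hδ0 (by norm_num : (0 : ℝ) ≤ 0.05031)
    norm_num at this ⊢
    linarith
  -- `u`
  set u : ℝ := r - l * g with hu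
  have u1 : u ≤ r := by linarith
  have u2 : |u| ≤ 1.0001 * r := by
    rw [abs_le]
    constructor <;> linarith
  have uu : u ^ 2 ≤ 1.0003 * r ^ 2 := by
    have h1 := pow_le_pow_left₀ (abs_nonneg u) u2 2
    rw [sq_abs, mul_pow] at h1
    have h2 := sq_nonneg r
    norm_num at h1 ⊢
    linarith
  -- `A`, `B`, `Wt`
  set A : ℝ := u ^ 2 / r with hA
  set B : ℝ := (g * s) ^ 2 / r with hB
  set Wt : ℝ := u * s ^ 2 / r with hW
  have A0 : 0 ≤ A := by positivity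
  have A1 : A ≤ 1.0003 * r := by
    rw [hA, div_le_iff₀ hr0]
    linarith
  have A2 : r - 0.01015 ≤ A := by
    rw [hA, le_div_iff₀ hr0, hu]
    have h1 := sq_nonneg (l * g)
    have h2 : l * g * r ≤ 0.00507 * r := mul_le_mul_of_nonneg_right lg1 hrn
    linarith
  have B0 : 0 ≤ B := by positivity
  have gs2 : (g * s) ^ 2 ≤ 0.002532 * t ^ 2 := by
    rw [mul_pow, hts]
    apply mul_le_mul_of_nonneg_right _ (sq_nonneg s)
    have := pow_le_pow_left₀ hg0 hg2 2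
    norm_num at this ⊢
    linarith
  have B1 : B ≤ 0.01013 := by
    rw [hB, div_le_iff₀ hr0]
    linarith
  have W1 : Wt ≤ t ^ 2 := by
    rw [hW, div_le_iff₀ hr0, hts]
    have := mul_le_mul_of_nonneg_right u1 (sq_nonneg s)
    linarith
  have W2 : t ^ 2 - 0.02029 ≤ Wt := by
    rw [hW, le_div_iff₀ hr0, hu, hts]
    have h1 : l * g * s ^ 2 ≤ 0.00507 * s ^ 2 := mul_le_mul_of_nonneg_right lg1 (sq_nonneg s)
    rw [hts] at hs4
    linarith
  have W3 : |Wt| ≤ 1.0001 * t ^ 2 := by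
    rw [hW, abs_div, abs_of_pos hr0, div_le_iff₀ hr0, abs_mul, abs_of_nonneg (sq_nonneg s), hts]
    have := mul_le_mul_of_nonneg_right u2 (sq_nonneg s)
    linarith
  -- products with `K`
  have KA1 : K * A * t ≤ 0.11654 * (r * t) := by
    have h1 : K * A ≤ 0.1165 * (1.0003 * r) := mul_le_mul hK2 A1 A0 (by norm_num)
    have h2 := mul_le_mul_of_nonneg_right h1 ht0
    have h3 := mul_nonneg hrn ht0
    norm_num at h2 ⊢
    linarith
  have KA0 : 0 ≤ K * A * t := by positivity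
  have KA2 : 0.07875 * (r * t) - 0.0012 * t ≤ K * A * t := by
    have h1 : K * (r - 0.01015) ≤ K * A := mul_le_mul_of_nonneg_left A2 hK0
    have h2 := mul_le_mul_of_nonneg_right h1 ht0
    have h3 : 0.07875 * (r * t) ≤ K * (r * t) := mul_le_mul_of_nonneg_right hK1 (mul_nonneg hrn ht0)
    have h4 : K * t ≤ 0.1165 * t := mul_le_mul_of_nonneg_right hK2 ht0
    norm_num at h2 h3 h4 ⊢
    linarith
  have KB0 : 0 ≤ K * B * t := by positivity
  have KB1 : K * B * t ≤ 0.00119 * t := by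
    have h1 : K * B ≤ 0.1165 * 0.01013 := mul_le_mul hK2 B1 B0 (by norm_num)
    have h2 := mul_le_mul_of_nonneg_right h1 ht0
    norm_num at h2 ⊢
    linarith
  have gW1 : |g * δ * Wt| ≤ 0.0497 * t ^ 2 := by
    have h1 := abs_mul_le (a := g * δ) (A := 0.04969) (by rw [abs_of_nonneg gd0]; exact gd2) W3
    have h2 := sq_nonneg t
    norm_num at h1 ⊢
    linarith
  have gW2 : 0.04297 * t ^ 2 - 0.00101 ≤ g * δ * Wt := by
    have h1 : g * δ * (t ^ 2 - 0.02029) ≤ g * δ * Wt := mul_le_mul_of_nonneg_left W2 gd0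
    have h2 : 0.04297 * t ^ 2 ≤ g * δ * t ^ 2 := mul_le_mul_of_nonneg_right gd1 (sq_nonneg t)
    norm_num at h1 h2 ⊢
    linarith
  -- `U`
  have U1 : |w * u| ≤ 0.99647 * r := by
    have h1 := abs_mul_le (a := w) (A := 0.99637) (by rw [abs_of_nonneg hw0]; exact hw2) u2
    norm_num at h1 ⊢
    linarith
  have U1' : 0.9435 * r - 0.00506 ≤ w * u := by
    have h1 : w * u = w * r - w * (l * g) := by rw [hu]; ring
    have h2 := mul_le_mul_of_nonneg_right hw1 hrn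
    have h3 : w * (l * g) ≤ 0.99637 * 0.00507 := mul_le_mul hw2 lg1 lg0 (by norm_num)
    norm_num at h3 ⊢
    linarith
  have gst : |g * s| ≤ 0.05031 * t :=
    abs_mul_le (a := g) (A := 0.05031) (by rw [abs_of_nonneg hg0]; exact hg2) (le_of_eq ht.symm)
  have U2 : |k * (K * (g * s))| ≤ 0.01767 * t := by
    have h1 := abs_mul_le (a := K) (A := 0.1165) (by rw [abs_of_nonneg hK0]; exact hK2) gst
    have h2 := abs_mul_le (a := k) (A := 3.0135) (by rw [abs_of_nonneg hk1]; exact hk2) h1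
    have h3 : (3.0135 * (0.1165 * (0.05031 * t)) : ℝ) ≤ 0.01767 * t := by
      norm_num
      linarith
    exact h2.trans h3
  have hX2 : |w * u + k * (K * (g * s))| ≤ 0.99647 * r + 0.01767 * t :=
    (abs_add_le _ _).trans (add_le_add U1 U2)
  -- `N`
  have Ku : K * u ^ 2 ≤ 0.11654 * r ^ 2 := by
    have h1 := mul_le_mul hK2 uu (sq_nonneg u) (by norm_num)
    have h2 := sq_nonneg r
    norm_num at h1 ⊢
    linarith
  have Ku0 : 0 ≤ K * u ^ 2 := by positivity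
  have Kz : K * (g * s) ^ 2 ≤ 0.000295 * t ^ 2 := by
    have h1 := mul_le_mul hK2 gs2 (sq_nonneg _) (by norm_num)
    have h2 := sq_nonneg t
    norm_num at h1 ⊢
    linarith
  have Kz0 : 0 ≤ K * (g * s) ^ 2 := by positivity
  have us1 : |g * δ * (u * s)| ≤ 0.0497 * (r * t) := by
    have h1 := abs_mul_le u2 (le_of_eq ht.symm)
    have h2 := abs_mul_le (a := g * δ) (A := 0.04969) (by rw [abs_of_nonneg gd0]; exact gd2) h1
    have h3 := mul_nonneg hrn ht0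
    have h4 : (0.04969 * (1.0001 * r * t) : ℝ) ≤ 0.0497 * (r * t) := by
      norm_num
      linarith
    exact h2.trans h4
  have hX3 : |-K * (u ^ 2 - (g * s) ^ 2) + g * δ * (u * s)| ≤
      0.11654 * r ^ 2 + 0.000295 * t ^ 2 + 0.0497 * (r * t) := by
    obtain ⟨a1, a2⟩ := abs_le.1 us1
    rw [abs_le]
    constructor <;> linarith
  have hX1 : |-K * A * s + K * B * s + g * δ * Wt| ≤
      0.11654 * (r * t) + 0.00119 * t + 0.0497 * t ^ 2 := by
    have b1 : |-K * A * s| ≤ 0.11654 * (r * t) := by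
      rw [neg_mul, neg_mul, abs_neg, abs_mul, abs_of_nonneg (mul_nonneg hK0 A0)]
      exact KA1
    have b2 : |K * B * s| ≤ 0.00119 * t := by
      rw [abs_mul, abs_of_nonneg (mul_nonneg hK0 B0)]
      exact KB1
    exact (abs_add_le _ _).trans (add_le_add ((abs_add_le _ _).trans (add_le_add b1 b2)) gW1)
  refine ⟨hX1, hX2, hX3, fun hs0 => ?_, fun hs0 => ?_⟩
  · have hst : t = s := by rw [ht, abs_of_nonneg hs0]
    refine ⟨?_, ?_, ?_, ?_⟩
    · have c1 : -K * A * s = -(K * A * t) := by rw [hst]; ring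
      have c2 : K * B * s = K * B * t := by rw [hst]
      rw [c1, c2]
      linarith
    · have c3 : 0 ≤ k * (K * (g * s)) := by positivity
      linarith
    · have c4 : g * δ * (u * s) = g * δ * (r * t) - g * δ * (l * g) * t := by
        rw [hst, hu]
        ring
      have c5 : 0.04297 * (r * t) ≤ g * δ * (r * t) :=
        mul_le_mul_of_nonneg_right gd1 (mul_nonneg hrn ht0)
      have c6 : g * δ * (l * g) * t ≤ 0.04969 * 0.00507 * 1 :=
        mul_le_mul (mul_le_mul gd2 lg1 lg0 (by norm_num)) ht1 ht0 (by norm_num)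
      rw [c4]
      norm_num at c6 ⊢
      linarith
    · have := le_of_abs_le us1
      linarith
  · have hst : s = -t := by rw [ht, abs_of_neg hs0, neg_neg]
    refine ⟨?_, ?_⟩
    · have c1 : -K * A * s = K * A * t := by rw [hst]; ring
      have c2 : K * B * s = -(K * B * t) := by rw [hst]; ring
      rw [c1, c2]
      norm_num at KA2 KB1 gW2 ⊢
      linarith
    · have := (abs_le.1 U2).1
      linarith

/-- the two-sided bound from bounds for the parts -/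
theorem ineq_core {r s l g K δ al be q w k : ℝ} (hr0 : 0 < r)
    (hs : s ^ 2 ≤ 4.00002 * r - 3.996 * r ^ 2 - 0.0078)
    (hl1 : 0.0884 ≤ l) (hl2 : l ≤ 0.1006) (hg1 : 0.04419 ≤ g) (hg2 : g ≤ 0.05031)
    (hlg : l * g ≤ 2.0001 * r) (hK1 : 0.07875 ≤ K) (hK2 : K ≤ 0.1165) (hδ1 : 0.97248 ≤ δ)
    (hδ2 : δ ≤ 0.98752) (ha1 : 1.5167 ≤ al) (ha2 : al ≤ 1.5379) (hb1 : 0.04454 ≤ be)
    (hb2 : be ≤ 0.05082) (hq : |q| ≤ 0.38483) (hw1 : 0.9435 ≤ w) (hw2 : w ≤ 0.99637)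
    (hk1 : 0 ≤ k) (hk2 : k ≤ 3.0135) :
    -0.0744 ≤ al * (-K * ((r - l * g) ^ 2 / r) * s + K * ((g * s) ^ 2 / r) * s +
        g * δ * ((r - l * g) * s ^ 2 / r)) + be * (w * (r - l * g) + k * (K * (g * s))) +
      q * (-K * ((r - l * g) ^ 2 - (g * s) ^ 2) + g * δ * ((r - l * g) * s)) ∧
    al * (-K * ((r - l * g) ^ 2 / r) * s + K * ((g * s) ^ 2 / r) * s +
        g * δ * ((r - l * g) * s ^ 2 / r)) + be * (w * (r - l * g) + k * (K * (g * s))) +
      q * (-K * ((r - l * g) ^ 2 - (g * s) ^ 2) + g * δ * ((r - l * g) * s)) ≤ 0.2619 := by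
  obtain ⟨hX1, hX2, hX3, hpos, hneg⟩ :=
    parts hr0 hs hl1 hl2 hg1 hg2 hlg hK1 hK2 hδ1 hδ2 hw1 hw2 hk1 hk2
  have hs' : |s| ^ 2 ≤ 4.00002 * r - 3.996 * r ^ 2 - 0.0078 := by
    rw [sq_abs]
    exact hs
  have hal0 : 0 ≤ al := by linarith
  have hbe0 : 0 ≤ be := by linarith
  refine ⟨?_, end_ub hr0 (abs_nonneg s) hs' (by rw [abs_of_nonneg hal0]; exact ha2)
    (by rw [abs_of_nonneg hbe0]; exact hb2) hq hX1 hX2 hX3⟩
  rcases le_or_gt 0 s with hs0 | hs0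
  · obtain ⟨p1, p2, p3, p4⟩ := hpos hs0
    exact end_lb1 hr0 (abs_nonneg s) hs' ha1 ha2 hb1 hb2 hq p1 p2 p3 p4
  · obtain ⟨p1, p2⟩ := hneg hs0
    exact end_lb2 hr0 (abs_nonneg s) hs' ha1 ha2 hb1 hb2 hq p1 p2 hX3

end Pool.Agent.HM.H46
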