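import Pool.Agent.Helper46_HM.Ineq2Z

/-!
# FAR: the second real inequality (part C)
-/

namespace Pool.Agent.HM.H46

open Pool.Agent.HM.FAR

/-- numerical consequences of the hypotheses -/
structure Nums (m c l e r C D k1 k2 kh sv : ℝ) : Prop where
  hmp : 0 < m
  K1 : 0.07875 ≤ -(C * D)
  K2 : -(C * D) ≤ 0.1165
  hδ1 : 0.97248 ≤ D ^ 2 - C ^ 2
  hδ2 : D ^ 2 - C ^ 2 ≤ 0.98752
  hg1 : 0.04419 ≤ l / m
  hg2 : l / m ≤ 0.05031
  hlg : l * (l / m) ≤ 2.0001 * r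
  al1 : 1.5167 ≤ 3 * c * k1 / (m * (e ^ 2) ^ 2)
  al2 : 3 * c * k1 / (m * (e ^ 2) ^ 2) ≤ 1.5379
  be1 : 0.04454 ≤ l * c / (m * e ^ 2)
  be2 : l * c / (m * e ^ 2) ≤ 0.05082
  hq : |kh * sv * (3 * c * k1) / e ^ 2| ≤ 0.38483
  hq1 : 3.009 ≤ 3 * c * k1 / e ^ 2
  hq2 : 3 * c * k1 / e ^ 2 ≤ 3.0445
  w1 : 0.9435 ≤ k2 - 3 * k1 * C ^ 2
  w2 : k2 - 3 * k1 * C ^ 2 ≤ 0.99637
  k0 : 0 ≤ 3 * k1
  k3 : 3 * k1 ≤ 3.0135

theorem nums {m c l e r s C D k1 k2 d kh sv : ℝ} (h : IneqHyp m c l e r s C D k1 k2 d)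
    (hkh : |kh - 0.25| ≤ 0.0003) (hsv : |sv| ≤ 0.505) (hlr : l ^ 2 ≤ 2.0001 * m * r) :
    Nums m c l e r C D k1 k2 kh sv := by
  obtain ⟨hm, hc, hl1, hl2, he0, he1, he2, hr0, hr1, hs, hCD, hneg, hC1, hC2, hk1, hk2, hd⟩ := h
  obtain ⟨m1, m2⟩ := abs_le.1 hm
  obtain ⟨c1, c2⟩ := abs_le.1 hc
  obtain ⟨k11, k12⟩ := abs_le.1 hk1
  obtain ⟨k21, k22⟩ := abs_le.1 hk2
  norm_num at m1 m2 c1 c2
  have hmp : 0 < m := by linarith
  have hcp : 0 < c := by linarith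
  have hk1p : 0 < k1 := by linarith
  have hlp : 0 < l := by linarith
  have m1' : (1.99999 : ℝ) ≤ m := by norm_num; linarith
  have m2' : m ≤ 2.00001 := by norm_num; linarith
  have c1' : (0.99999 : ℝ) ≤ c := by norm_num; linarith
  have c2' : c ≤ 1.00001 := by norm_num; linarith
  have k11' : (0.9955 : ℝ) ≤ k1 := by norm_num at k11 ⊢; linarith
  have k12' : k1 ≤ 1.0045 := by norm_num at k12 ⊢; linarith
  -- the direction
  have C1 : (0.006241 : ℝ) ≤ C ^ 2 := by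
    rw [← sq_abs C]
    have := pow_le_pow_left₀ (by norm_num) hC1 2
    norm_num at this ⊢
    linarith
  have C2 : C ^ 2 ≤ 0.0137593 := by
    rw [← sq_abs C]
    have := pow_le_pow_left₀ (abs_nonneg C) hC2 2
    norm_num at this ⊢
    linarith
  have hD : D ^ 2 = 1 - C ^ 2 := by linarith
  have hKp : 0 < -(C * D) := by linarith
  have hKsq : (-(C * D)) ^ 2 = C ^ 2 * (1 - C ^ 2) := by
    rw [neg_sq, mul_pow, hD]
  have K1 : (0.07875 : ℝ) ≤ -(C * D) := by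
    by_contra hcon
    push Not at hcon
    have h1 := pow_lt_pow_left₀ hcon hKp.le two_ne_zero
    have h2 : (0.006241 : ℝ) * (1 - 0.0137593) ≤ C ^ 2 * (1 - C ^ 2) :=
      mul_le_mul C1 (by linarith) (by norm_num) (sq_nonneg C)
    have h3 : 0 ≤ (C ^ 2 - 0.006241) * (1 - C ^ 2 - 0.006241) :=
      mul_nonneg (by linarith) (by linarith)
    rw [hKsq] at h1
    norm_num at h1 h2 h3
    linarith
  have K2 : -(C * D) ≤ 0.1165 := by
    by_contra hcon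
    push Not at hcon
    have h1 := pow_lt_pow_left₀ hcon (by norm_num) two_ne_zero
    have h3 : 0 ≤ (0.0137593 - C ^ 2) * (1 - C ^ 2 - 0.0137593) :=
      mul_nonneg (by linarith) (by linarith)
    rw [hKsq] at h1
    norm_num at h1 h3
    linarith
  -- ratios
  have hg1 : (0.04419 : ℝ) ≤ l / m := by
    rw [le_div_iff₀ hmp]
    linarith
  have hg2 : l / m ≤ 0.05031 := by
    rw [div_le_iff₀ hmp]
    linarith
  have hlg : l * (l / m) ≤ 2.0001 * r := by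
    rw [← mul_div_assoc, div_le_iff₀ hmp, ← sq]
    linarith
  have hE0 : 0 < e ^ 2 := by linarith
  have hE1 : 0 < m * e ^ 2 := mul_pos hmp hE0
  have hE2 : 0 < m * (e ^ 2) ^ 2 := by positivity
  have ck1 : (0.99999 * 0.9955 : ℝ) ≤ c * k1 := mul_le_mul c1' k11' (by norm_num) hcp.le
  have ck2 : c * k1 ≤ 1.00001 * 1.0045 := mul_le_mul c2' k12' hk1p.le (by norm_num)
  have mE1 : (1.99999 * 0.98986 : ℝ) ≤ m * e ^ 2 := mul_le_mul m1' he1 (by norm_num) hmp.le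
  have mE2 : m * e ^ 2 ≤ 2.00001 * 0.99222 := mul_le_mul m2' he2 hE0.le (by norm_num)
  have EE1 : (0.98986 ^ 2 : ℝ) ≤ (e ^ 2) ^ 2 := pow_le_pow_left₀ (by norm_num) he1 2
  have EE2 : (e ^ 2) ^ 2 ≤ 0.99222 ^ 2 := pow_le_pow_left₀ hE0.le he2 2
  have mEE1 : (1.99999 * 0.98986 ^ 2 : ℝ) ≤ m * (e ^ 2) ^ 2 :=
    mul_le_mul m1' EE1 (by norm_num) hmp.le
  have mEE2 : m * (e ^ 2) ^ 2 ≤ 2.00001 * 0.99222 ^ 2 :=
    mul_le_mul m2' EE2 (by positivity) (by norm_num)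
  have al1 : (1.5167 : ℝ) ≤ 3 * c * k1 / (m * (e ^ 2) ^ 2) := by
    rw [le_div_iff₀ hE2]
    norm_num at ck1 mEE2 ⊢
    linarith
  have al2 : 3 * c * k1 / (m * (e ^ 2) ^ 2) ≤ 1.5379 := by
    rw [div_le_iff₀ hE2]
    norm_num at ck2 mEE1 ⊢
    linarith
  have lc1 : (0.0884 * 0.99999 : ℝ) ≤ l * c := mul_le_mul hl1 c1' (by norm_num) hlp.le
  have lc2 : l * c ≤ 0.1006 * 1.00001 := mul_le_mul hl2 c2' hcp.le (by norm_num)
  have be1 : (0.04454 : ℝ) ≤ l * c / (m * e ^ 2) := by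
    rw [le_div_iff₀ hE1]
    norm_num at lc1 mE2 ⊢
    linarith
  have be2 : l * c / (m * e ^ 2) ≤ 0.05082 := by
    rw [div_le_iff₀ hE1]
    norm_num at lc2 mE1 ⊢
    linarith
  have hq : |kh * sv * (3 * c * k1) / e ^ 2| ≤ 0.38483 := by
    rw [abs_div, abs_of_pos hE0, div_le_iff₀ hE0]
    have h1 : |kh * sv * (3 * c * k1)| ≤ 0.2503 * 0.505 * (3 * (1.00001 * 1.0045)) := by
      refine abs_mul_le (abs_mul_le ?_ hsv) ?_
      · obtain ⟨a1, a2⟩ := abs_le.1 hkh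
        rw [abs_le]
        norm_num at a1 a2 ⊢
        constructor <;> linarith
      · rw [abs_of_pos (by positivity), mul_assoc]
        exact mul_le_mul_of_nonneg_left ck2 (by norm_num)
    refine h1.trans ?_
    norm_num at he1 ⊢
    linarith
  have kC1 : (0.9955 * 0.006241 : ℝ) ≤ k1 * C ^ 2 := mul_le_mul k11' C1 (by norm_num) hk1p.le
  have kC2 : k1 * C ^ 2 ≤ 1.0045 * 0.0137593 := mul_le_mul k12' C2 (sq_nonneg C) (by norm_num)
  have w1 : (0.9435 : ℝ) ≤ k2 - 3 * k1 * C ^ 2 := by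
    norm_num at kC2 k21 ⊢
    linarith
  have w2 : k2 - 3 * k1 * C ^ 2 ≤ 0.99637 := by
    norm_num at kC1 k22 ⊢
    linarith
  refine ⟨hmp, K1, K2, by norm_num; linarith, by norm_num at C1 ⊢; linarith, hg1, hg2, hlg, al1, al2,
    be1, be2, hq, ?_, ?_, w1, w2, by linarith, by norm_num at k12' ⊢; linarith⟩
  · rw [le_div_iff₀ hE0]
    norm_num at ck1 he2 ⊢
    linarith
  · rw [div_le_iff₀ hE0]
    norm_num at ck2 he1 ⊢
    linarith

end Pool.Agent.HM.H46
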