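import Pool.Agent.Helper46_HM.Ineq2A
import Pool.Agent.Helper46_HM.Ineq2B
import Pool.Agent.Helper46_HM.Ineq2C

/-!
# FAR: the second real inequality
-/

namespace Pool.Agent.HM.H46

open Pool.Agent.HM.FAR

theorem ineq2 : FAR.Ineq2Stmt := by
  intro m c l e r s C D k1 k2 d kh sv h hkh hsv hlr
  have herr := err_le h hkh hsv hlr
  have hn := nums h hkh hsv hlr
  have hmain := ineq_core (r := r) (s := s) (l := l) (g := l / m) (K := -(C * D))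
    (δ := D ^ 2 - C ^ 2) (al := 3 * c * k1 / (m * (e ^ 2) ^ 2)) (be := l * c / (m * e ^ 2))
    (q := kh * sv * (3 * c * k1) / e ^ 2) (w := k2 - 3 * k1 * C ^ 2) (k := 3 * k1) h.hr0 h.hs
    h.hl1 h.hl2 hn.hg1 hn.hg2 hn.hlg hn.K1 hn.K2 hn.hδ1 hn.hδ2 hn.al1 hn.al2 hn.be1 hn.be2 hn.hq
    hn.w1 hn.w2 hn.k0 hn.k3
  obtain ⟨g1, g2⟩ := hmain
  obtain ⟨e1, e2⟩ := abs_le.1 herr
  rw [Gf_eq m c l e r s C D k1 k2 d kh sv hn.hmp.ne' h.he0.ne' h.hr0.ne']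
  constructor
  · have n1 : (-0.0745 : ℝ) = -0.0744 + -0.0001 := by norm_num
    rw [n1]
    exact add_le_add g1 e1
  · have n1 : (0.262 : ℝ) = 0.2619 + 0.0001 := by norm_num
    rw [n1]
    exact add_le_add g2 e2

end Pool.Agent.HM.H46
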