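import Pool.Agent.Helper46_HM.Ineq2
import Pool.Agent.Helper35_TB.Stmt3

/-!
# FAR: the third real inequality
-/

namespace Pool.Agent.HM.H46

open Pool.Agent.HM.FAR

theorem pol_lb4 (r t : ℝ) (ht : 0 ≤ t)
    (h : t ^ 2 ≤ 4.00002 * r - 3.996 * r ^ 2 - 0.0078) :
    0.5062 * r ^ 2 + 0.0965 * (r * t) - 0.0638 * t ^ 2 - 0.0420 * r + 0.0047 * t + 0.0020 ≤
      0.5098 := by
  nlinarith [sq_nonneg (t - 0.2 * r - 0.01), sq_nonneg (r - 0.98)]

theorem FLf_eq (m c l e r s C D k1 d : ℝ) (hm : m ≠ 0) (he : e ≠ 0) :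
    FLf m c l e r s C D k1 d = 3 * c * k1 / e ^ 2 *
        (-(-(C * D)) * ((r - l * (l / m)) ^ 2 - ((l / m) * s) ^ 2) +
          (l / m) * (D ^ 2 - C ^ 2) * ((r - l * (l / m)) * s)) +
      d * (3 * c * k1 * Qf m l e r s C D) := by
  unfold FLf Pf Qf
  field_simp
  ring

theorem Qf_le {m c l e r s C D k1 k2 d : ℝ} (h : IneqHyp m c l e r s C D k1 k2 d)
    (hlr : l ^ 2 ≤ 2.0001 * m * r) : |3 * c * k1 * Qf m l e r s C D| ≤ 3.02 * 1.1 := by
  obtain ⟨hm, hc, hl1, hl2, he0, he1, he2, hr0, hr1, hs, hCD, hneg, hC1, hC2, hk1, hk2, hd⟩ := h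
  have hm' := abs_le.1 hm
  have hc' := abs_le.1 hc
  have hk1' := abs_le.1 hk1
  have m1 : (1.99999 : ℝ) ≤ m := by norm_num at hm' ⊢; linarith [hm'.1]
  have hmp : 0 < m := by linarith
  have hlp : 0 < l := by linarith
  have a3 : |3 * c * k1| ≤ 3.02 := by
    have h1 : |3 * c| ≤ 3.0001 := by
      rw [abs_le]
      norm_num at hc' ⊢
      constructor <;> linarith [hc'.1, hc'.2]
    have h2 : |k1| ≤ 1.0045 := by
      rw [abs_le]
      constructor <;> linarith [hk1'.1, hk1'.2]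
    refine (abs_mul_le h1 h2).trans ?_
    norm_num
  have he4 : (0.99 : ℝ) ≤ e := by
    by_contra hcon
    push Not at hcon
    have := pow_lt_pow_left₀ hcon he0.le two_ne_zero
    norm_num at this
    linarith
  have hD : |D| ≤ 1 := by
    rw [← sq_le_one_iff_abs_le_one]
    have := sq_nonneg C
    linarith
  have hs1 : |s| ≤ 1 := by
    rw [← sq_le_one_iff_abs_le_one]
    have := sq_nonneg (r - 0.5005)
    linarith
  have hu : |r - l ^ 2 / m| ≤ 1.0001 * r := by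
    have h1 : 0 ≤ l ^ 2 / m := by positivity
    have h2 : l ^ 2 / m ≤ 2.0001 * r := by
      rw [div_le_iff₀ hmp]
      linarith
    rw [abs_le]
    constructor <;> linarith
  have hlm : |l / m| ≤ 0.0504 := by
    rw [abs_of_pos (by positivity), div_le_iff₀ hmp]
    linarith
  have hz : |l * s / m| ≤ 0.0504 * |s| := by
    have e1 : l * s / m = l / m * s := by ring
    rw [e1, abs_mul]
    exact mul_le_mul_of_nonneg_right hlm (abs_nonneg s)
  have hQ1 : |-(r - l ^ 2 / m) * D + l * s / m * C| ≤ 1.0001 * r + 0.0504 * |s| * 0.1173 := by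
    refine (abs_add_le _ _).trans (add_le_add ?_ (abs_mul_le hz hC2))
    rw [neg_mul, abs_neg]
    have := abs_mul_le hu hD
    rwa [mul_one] at this
  refine abs_mul_le a3 ?_
  unfold Qf
  rw [abs_div, abs_of_pos he0]
  refine (div_le_div₀ ((abs_nonneg _).trans hQ1) hQ1 (by norm_num) he4).trans ?_
  rw [div_le_iff₀ (by norm_num)]
  linarith

theorem end3a {r t al be q X1 X2 X3 : ℝ} (hr : 0 < r) (hr1 : r ≤ 1.0006) (ht0 : 0 ≤ t)
    (hs : t ^ 2 ≤ 4.00002 * r - 3.996 * r ^ 2 - 0.0078) (ha1 : 1.5167 ≤ al) (ha2 : al ≤ 1.5379)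
    (hb1 : 0.04454 ≤ be) (hb2 : be ≤ 0.05082) (hq0 : 0 ≤ q) (hq : q ≤ 4.3427)
    (h1 : 0.04297 * t ^ 2 - (0.11654 * (r * t) + 0.00101) ≤ X1)
    (h2 : 0.9435 * r - 0.00506 ≤ X2)
    (h3 : 0.04297 * (r * t) - (0.11654 * r ^ 2 + 0.00026) ≤ X3) :
    -0.5098 ≤ al * X1 + be * X2 + q * X3 := by
  have e5 := mul_nonneg hr.le ht0
  have e6 := sq_nonneg t
  have e7 := sq_nonneg r
  have e8 : r ^ 2 ≤ 1.0006 * r := by
    rw [sq]
    exact mul_le_mul_of_nonneg_right hr1 hr.le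
  have e1 := mix ha1 ha2 (by linarith) (by positivity) (by positivity) h1
  have e2 := mix hb1 hb2 (by linarith) (by positivity) (by norm_num) h2
  have p2 := pol_lb2 r t hs
  rcases le_or_gt 0 X3 with hx | hx
  · have e3 := mul_nonneg hq0 hx
    norm_num at e1 e2 p2 ⊢
    linarith
  · have e3 : 4.3427 * X3 ≤ q * X3 := mul_le_mul_of_nonpos_right hq hx.le
    norm_num at e1 e2 e3 h3 e8 hr1 ⊢
    linarith

theorem end3b {r t al be q X1 X2 X3 : ℝ} (hr : 0 < r) (ht0 : 0 ≤ t)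
    (hs : t ^ 2 ≤ 4.00002 * r - 3.996 * r ^ 2 - 0.0078) (ha1 : 1.5167 ≤ al) (ha2 : al ≤ 1.5379)
    (hb1 : 0.04454 ≤ be) (hb2 : be ≤ 0.05082) (hq0 : 0 ≤ q) (hq : q ≤ 4.3427)
    (h1 : (0.07875 * (r * t) + 0.04297 * t ^ 2) - (0.00239 * t + 0.00101) ≤ X1)
    (h2 : 0.9435 * r - (0.00506 + 0.01767 * t) ≤ X2)
    (h3 : |X3| ≤ 0.11654 * r ^ 2 + 0.000295 * t ^ 2 + 0.0497 * (r * t)) :
    -0.5098 ≤ al * X1 + be * X2 + q * X3 := by
  have e5 := mul_nonneg hr.le ht0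
  have e6 := sq_nonneg t
  have e7 := sq_nonneg r
  have e1 := mix ha1 ha2 (by linarith) (by positivity) (by positivity) h1
  have e2 := mix hb1 hb2 (by linarith) (by positivity) (by positivity) h2
  have e3 := (neg_abs_le (q * X3))
  have hq' : |q| ≤ 4.3427 := by
    rw [abs_of_nonneg hq0]
    exact hq
  have e4 := (abs_mul_le hq' h3)
  have p4 := pol_lb4 r t ht0 hs
  norm_num at e1 e2 p4 ⊢
  rw [abs_mul] at e4 e3
  norm_num at e4
  linarith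

theorem ineq3 : FAR.Ineq3Stmt := by
  intro m c l e r s C D k1 k2 d kh sv h hkh hsv hlr
  have herr := err_le h hkh hsv hlr
  have herr2 := Qf_le h hlr
  have hn := nums h hkh hsv hlr
  have hs' : |s| ^ 2 ≤ 4.00002 * r - 3.996 * r ^ 2 - 0.0078 := by
    rw [sq_abs]
    exact h.hs
  obtain ⟨hX1, hX2, hX3, hpos, hneg⟩ := parts (r := r) (s := s) (l := l) (g := l / m)
    (K := -(C * D)) (δ := D ^ 2 - C ^ 2) (w := k2 - 3 * k1 * C ^ 2) (k := 3 * k1) h.hr0 h.hs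
    h.hl1 h.hl2 hn.hg1 hn.hg2 hn.hlg hn.K1 hn.K2 hn.hδ1 hn.hδ2
    hn.w1 hn.w2 hn.k0 hn.k3
  rw [Gf_eq m c l e r s C D k1 k2 d kh sv hn.hmp.ne' h.he0.ne' h.hr0.ne',
    FLf_eq m c l e r s C D k1 d hn.hmp.ne' h.he0.ne']
  set X1 := (-(-(C * D)) * ((r - l * (l / m)) ^ 2 / r) * s + -(C * D) * (((l / m) * s) ^ 2 / r) * s +
          (l / m) * (D ^ 2 - C ^ 2) * ((r - l * (l / m)) * s ^ 2 / r))
  set X2 := ((k2 - 3 * k1 * C ^ 2) * (r - l * (l / m)) + 3 * k1 * (-(C * D) * ((l / m) * s)))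
  set X3 := (-(-(C * D)) * ((r - l * (l / m)) ^ 2 - ((l / m) * s) ^ 2) +
          (l / m) * (D ^ 2 - C ^ 2) * ((r - l * (l / m)) * s))
  set al := 3 * c * k1 / (m * (e ^ 2) ^ 2)
  set be := l * c / (m * e ^ 2)
  set q := kh * sv * (3 * c * k1) / e ^ 2
  set h0 := 3 * c * k1 / e ^ 2
  set Er := d * (3 * c * k1 * (Qf m l e r s C D * (s / r)) / (m * e ^ 2) +
        3 * c * k1 * l * C * e / (m * e ^ 2) + kh * sv * (3 * c * k1) * Qf m l e r s C D)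
  have herr3 : |d * (3 * c * k1 * Qf m l e r s C D)| ≤ 1 / 10 ^ 5 * (3.02 * 1.1) :=
    abs_mul_le h.hd herr2
  set Er2 := d * (3 * c * k1 * Qf m l e r s C D)
  obtain ⟨e1, e2⟩ := abs_le.1 herr
  obtain ⟨f1, f2⟩ := abs_le.1 herr3
  obtain ⟨q1, q2⟩ := abs_le.1 hn.hq
  have Q1 : 0 ≤ q + 1.3 * h0 := by
    have := hn.hq1
    norm_num at q1 this ⊢
    linarith
  have Q2 : q + 1.3 * h0 ≤ 4.3427 := by
    have := hn.hq2
    norm_num at q2 this ⊢
    linarith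
  have key : -0.5098 ≤ al * X1 + be * X2 + (q + 1.3 * h0) * X3 := by
    rcases le_or_gt 0 s with hs0 | hs0
    · obtain ⟨p1, p2, p3, p4⟩ := hpos hs0
      exact end3a h.hr0 h.hr1 (abs_nonneg s) hs' hn.al1 hn.al2 hn.be1 hn.be2 Q1 Q2 p1 p2 p3
    · obtain ⟨p1, p2⟩ := hneg hs0
      exact end3b h.hr0 (abs_nonneg s) hs' hn.al1 hn.al2 hn.be1 hn.be2 Q1 Q2 p1 p2 hX3
  have e : 1.3 * (h0 * X3 + Er2) + (al * X1 + be * X2 + q * X3 + Er) =
      (al * X1 + be * X2 + (q + 1.3 * h0) * X3) + (1.3 * Er2 + Er) := by ring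
  rw [e]
  norm_num at f1 e1 key ⊢
  linarith

end Pool.Agent.HM.H46
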