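import Pool.Agent.Helper35_TB.Stmt

/-!
# Continuous argument of a differentiable curve which avoids 0
-/

namespace Pool.Agent.HM.H46

open Complex Set Topology Pool.Agent.HM Filter

noncomputable section

theorem polar : FAR.PolarStmt := by
  intro F F' T hT hF hF' h0
  have hFc : ContinuousOn F (Icc 0 T) := fun t ht => (hF t ht).continuousAt.continuousWithinAt
  have hw : ContinuousOn (fun t => F' t / F t) (Icc 0 T) := hF'.div hFc h0
  -- extension of the logarithmic derivative
  obtain ⟨w, hwc, hwe⟩ : ∃ w : ℝ → ℂ, Continuous w ∧ ∀ t ∈ Icc (0 : ℝ) T, w t = F' t / F t := by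
    refine ⟨IccExtend hT ((Icc (0 : ℝ) T).domRestrict fun t => F' t / F t), ?_, ?_⟩
    · exact (continuousOn_iff_continuous_domRestrict.1 hw).Icc_extend'
    · intro t ht
      rw [IccExtend_of_mem hT _ ht]
      rfl
  set L : ℝ → ℂ := fun t => ∫ s in (0 : ℝ)..t, w s with hL
  have hLd : ∀ t, HasDerivAt L (w t) t := fun t =>
    (hwc.integral_hasStrictDerivAt 0 t).hasDerivAt
  have hL0 : L 0 = 0 := intervalIntegral.integral_same
  have hFt : ∀ t ∈ Icc (0 : ℝ) T, F t * exp (-L t) = F 0 := by
    have hd : ∀ t ∈ Icc (0 : ℝ) T, HasDerivAt (fun t => F t * exp (-L t)) 0 t := by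
      intro t ht
      have h1 := (hF t ht).mul ((hLd t).neg.cexp)
      refine h1.congr_deriv ?_
      rw [hwe t ht]
      field_simp [h0 t ht]
      ring
    intro t ht
    have h2 : F t * exp (-L t) = F 0 * exp (-L 0) :=
      constant_of_has_deriv_right_zero (f := fun t => F t * exp (-L t)) (a := 0) (b := T)
      (fun t ht => (hd t ht).continuousAt.continuousWithinAt)
      (fun t ht => (hd t ⟨ht.1, ht.2.le⟩).hasDerivWithinAt) t ht
    rw [h2, hL0]
    simp
  have hFe : ∀ t ∈ Icc (0 : ℝ) T, F t = exp (L t) * F 0 := by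
    intro t ht
    rw [← hFt t ht, mul_comm (F t), ← mul_assoc, ← Complex.exp_add]
    simp
  refine ⟨fun t => (L t).im, by simp [hL0], ?_, ?_⟩
  · intro t ht
    have h1 : HasDerivAt (fun t => (L t).im) (w t).im t :=
      Complex.imCLM.hasFDerivAt.comp_hasDerivAt t (hLd t)
    rw [hwe t ht] at h1
    exact h1.hasDerivWithinAt
  · intro t ht
    have hF0 : 0 < ‖F 0‖ := norm_pos_iff.2 (h0 0 ⟨le_refl _, hT⟩)
    have h1 : ‖F t‖ / ‖F 0‖ = Real.exp (L t).re := by
      rw [hFe t ht, norm_mul, Complex.norm_exp]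
      field_simp
    rw [h1, hFe t ht]
    congr 1
    rw [Complex.ofReal_exp, ← Complex.exp_add]
    congr 1
    apply Complex.ext <;> simp

end

end Pool.Agent.HM.H46
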