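import Pool.Agent.Helper46_HM.Ineq2Z

/-!
# FAR: the second real inequality (part A)
-/

namespace Pool.Agent.HM.H46

open Pool.Agent.HM.FAR

theorem Gf_eq (m c l e r s C D k1 k2 d kh sv : ℝ) (hm : m ≠ 0) (he : e ≠ 0) (hr : r ≠ 0) :
    Gf m c l e r s C D k1 k2 d kh sv =
      3 * c * k1 / (m * (e ^ 2) ^ 2) *
        ((-(-(C * D)) * ((r - l * (l / m)) ^ 2 / r) * s + -(C * D) * (((l / m) * s) ^ 2 / r) * s +
          (l / m) * (D ^ 2 - C ^ 2) * ((r - l * (l / m)) * s ^ 2 / r))) +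
      l * c / (m * e ^ 2) * ((k2 - 3 * k1 * C ^ 2) * (r - l * (l / m)) +
        3 * k1 * (-(C * D) * ((l / m) * s))) +
      kh * sv * (3 * c * k1) / e ^ 2 *
        (-(-(C * D)) * ((r - l * (l / m)) ^ 2 - ((l / m) * s) ^ 2) +
          (l / m) * (D ^ 2 - C ^ 2) * ((r - l * (l / m)) * s)) +
      d * (3 * c * k1 * (Qf m l e r s C D * (s / r)) / (m * e ^ 2) +
        3 * c * k1 * l * C * e / (m * e ^ 2) + kh * sv * (3 * c * k1) * Qf m l e r s C D) := by
  unfold Gf FLf Aff Pf Qf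
  field_simp
  ring

/-- bound for the error term -/
theorem err_le {m c l e r s C D k1 k2 d kh sv : ℝ} (h : IneqHyp m c l e r s C D k1 k2 d)
    (hkh : |kh - 0.25| ≤ 0.0003) (hsv : |sv| ≤ 0.505) (hlr : l ^ 2 ≤ 2.0001 * m * r) :
    |d * (3 * c * k1 * (Qf m l e r s C D * (s / r)) / (m * e ^ 2) +
        3 * c * k1 * l * C * e / (m * e ^ 2) + kh * sv * (3 * c * k1) * Qf m l e r s C D)| ≤
      0.0001 := by
  obtain ⟨hm, hc, hl1, hl2, he0, he1, he2, hr0, hr1, hs, hCD, hneg, hC1, hC2, hk1, hk2, hd⟩ := h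
  have hm' := abs_le.1 hm
  have hc' := abs_le.1 hc
  have hk1' := abs_le.1 hk1
  have hkh' := abs_le.1 hkh
  have m1 : (1.99999 : ℝ) ≤ m := by norm_num at hm' ⊢; linarith [hm'.1]
  have m2 : m ≤ 2.00001 := by norm_num at hm' ⊢; linarith [hm'.2]
  have hmp : 0 < m := by linarith
  have hlp : 0 < l := by linarith
  have a3 : |3 * c * k1| ≤ 3.02 := by
    have h1 : |3 * c| ≤ 3.0001 := by
      rw [abs_le]
      norm_num at hc' ⊢
      constructor <;> linarith [hc'.1, hc'.2]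
    have h2 : |k1| ≤ 1.0045 := by
      rw [abs_le]
      constructor <;> linarith [hk1'.1, hk1'.2]
    refine (abs_mul_le h1 h2).trans ?_
    norm_num
  have he3 : e ≤ 1 := by
    by_contra hcon
    push Not at hcon
    have := one_lt_pow₀ hcon two_ne_zero
    linarith
  have he4 : (0.99 : ℝ) ≤ e := by
    by_contra hcon
    push Not at hcon
    have := pow_lt_pow_left₀ hcon he0.le two_ne_zero
    norm_num at this
    linarith
  have hD : |D| ≤ 1 := by
    rw [← sq_le_one_iff_abs_le_one]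
    have := sq_nonneg C
    linarith
  have hs1 : |s| ≤ 1 := by
    rw [← sq_le_one_iff_abs_le_one]
    have := sq_nonneg (r - 0.5005)
    linarith
  have hu : |r - l ^ 2 / m| ≤ 1.0001 * r := by
    have h1 : 0 ≤ l ^ 2 / m := by positivity
    have h2 : l ^ 2 / m ≤ 2.0001 * r := by
      rw [div_le_iff₀ hmp]
      linarith
    rw [abs_le]
    constructor <;> linarith
  have hlm : |l / m| ≤ 0.0504 := by
    rw [abs_of_pos (by positivity), div_le_iff₀ hmp]
    linarith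
  have hz : |l * s / m| ≤ 0.0504 * |s| := by
    have e1 : l * s / m = l / m * s := by ring
    rw [e1, abs_mul]
    exact mul_le_mul_of_nonneg_right hlm (abs_nonneg s)
  have hQ1 : |-(r - l ^ 2 / m) * D + l * s / m * C| ≤ 1.0001 * r + 0.0504 * |s| * 0.1173 := by
    refine (abs_add_le _ _).trans (add_le_add ?_ (abs_mul_le hz hC2))
    rw [neg_mul, abs_neg]
    have := abs_mul_le hu hD
    rwa [mul_one] at this
  have hQe : ∀ x y : ℝ, |x| ≤ y → |x / e| ≤ y / 0.99 := by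
    intro x y hxy
    rw [abs_div, abs_of_pos he0]
    exact div_le_div₀ ((abs_nonneg x).trans hxy) hxy (by norm_num) he4
  have hQ : |Qf m l e r s C D| ≤ 1.1 := by
    refine (hQe _ _ hQ1).trans ?_
    rw [div_le_iff₀ (by norm_num)]
    linarith
  have hQs : |Qf m l e r s C D * (s / r)| ≤ 1.1 := by
    have h1 : |Qf m l e r s C D| * |s / r| ≤ (1.0001 * r + 0.0504 * |s| * 0.1173) / 0.99 * |s / r| :=
      mul_le_mul_of_nonneg_right (hQe _ _ hQ1) (abs_nonneg _)
    rw [abs_mul]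
    refine h1.trans ?_
    rw [abs_div, abs_of_pos hr0]
    have h2 : |s| ^ 2 ≤ 4.00002 * r := by
      rw [sq_abs]
      have := sq_nonneg r
      linarith
    have h3 : (1.0001 * r + 0.0504 * |s| * 0.1173) / 0.99 * (|s| / r) =
        (1.0001 * |s| + 0.0504 * 0.1173 * (|s| ^ 2 / r)) / 0.99 := by
      field_simp
    rw [h3]
    have h4 : |s| ^ 2 / r ≤ 4.00002 := by
      rw [div_le_iff₀ hr0]
      exact h2
    rw [div_le_iff₀ (by norm_num)]
    linarith
  have hme : 1.9 ≤ m * e ^ 2 :=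
    (show (1.9 : ℝ) ≤ 1.99999 * 0.98986 by norm_num).trans
      (mul_le_mul m1 he1 (by norm_num) (by linarith))
  have hmep : 0 < m * e ^ 2 := by linarith
  have hdiv : ∀ x y : ℝ, |x| ≤ y → |x / (m * e ^ 2)| ≤ y / 1.9 := by
    intro x y hxy
    rw [abs_div, abs_of_pos hmep]
    exact div_le_div₀ ((abs_nonneg x).trans hxy) hxy (by norm_num) hme
  have t1 : |3 * c * k1 * (Qf m l e r s C D * (s / r)) / (m * e ^ 2)| ≤ 3.02 * 1.1 / 1.9 :=
    hdiv _ _ (abs_mul_le a3 hQs)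
  have t2 : |3 * c * k1 * l * C * e / (m * e ^ 2)| ≤ 3.02 * 0.1006 * 0.1173 * 1 / 1.9 := by
    apply hdiv
    refine abs_mul_le (abs_mul_le (abs_mul_le a3 ?_) hC2) ?_
    · rw [abs_of_pos hlp]
      exact hl2
    · rw [abs_of_pos he0]
      exact he3
  have t3 : |kh * sv * (3 * c * k1) * Qf m l e r s C D| ≤ 0.2503 * 0.505 * 3.02 * 1.1 := by
    refine abs_mul_le (abs_mul_le (abs_mul_le ?_ hsv) a3) hQ
    rw [abs_le]
    constructor <;> linarith [hkh'.1, hkh'.2]
  have t4 := (abs_add_le (3 * c * k1 * (Qf m l e r s C D * (s / r)) / (m * e ^ 2) +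
        3 * c * k1 * l * C * e / (m * e ^ 2)) (kh * sv * (3 * c * k1) * Qf m l e r s C D))
  have t5 := (abs_add_le (3 * c * k1 * (Qf m l e r s C D * (s / r)) / (m * e ^ 2))
        (3 * c * k1 * l * C * e / (m * e ^ 2)))
  have t6 : |3 * c * k1 * (Qf m l e r s C D * (s / r)) / (m * e ^ 2) +
        3 * c * k1 * l * C * e / (m * e ^ 2) + kh * sv * (3 * c * k1) * Qf m l e r s C D| ≤ 5 := by
    have n1 : (3.02 * 1.1 / 1.9 : ℝ) ≤ 2 := by norm_num
    have n2 : (3.02 * 0.1006 * 0.1173 * 1 / 1.9 : ℝ) ≤ 1 := by norm_num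
    have n3 : (0.2503 * 0.505 * 3.02 * 1.1 : ℝ) ≤ 1 := by norm_num
    linarith
  refine (abs_mul_le hd t6).trans ?_
  norm_num

end Pool.Agent.HM.H46
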