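import Pool.Agent.Helper46_HM.IneqPol

/-!
# FAR: the second real inequality (a small lemma)
-/

namespace Pool.Agent.HM.H46

open Pool.Agent.HM.FAR

theorem abs_mul_le {a b A B : ℝ} (ha : |a| ≤ A) (hb : |b| ≤ B) : |a * b| ≤ A * B := by
  rw [abs_mul]
  exact mul_le_mul ha hb (abs_nonneg b) ((abs_nonneg a).trans ha)

end Pool.Agent.HM.H46
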