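import Pool.Agent.Helper35_TB.Stmt2

/-!
# Polynomial inequalities on the curve `s ^ 2 ≤ 4 r - 4 r ^ 2`
-/

namespace Pool.Agent.HM.H46

theorem pol_ub (r t : ℝ) (ht : 0 ≤ t)
    (h : t ^ 2 ≤ 4.00002 * r - 3.996 * r ^ 2 - 0.0078) :
    0.19845 * (r * t) + 0.0766 * t ^ 2 + 0.0507 * r + 0.0449 * r ^ 2 + 0.0028 * t + 0.0002 ≤
      0.262 := by
  nlinarith [sq_nonneg (t - 1.1926 * r - 0.017), sq_nonneg (r - 0.7292)]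

theorem pol_lb1 (r s : ℝ)
    (h : s ^ 2 ≤ 4.00002 * r - 3.996 * r ^ 2 - 0.0078) :
    0.16275 * (r * s) - 0.0650 * s ^ 2 - 0.0420 * r + 0.0449 * r ^ 2 + 0.0022 ≤ 0.0745 := by
  nlinarith [sq_nonneg (s - 0.7292 * r), sq_nonneg (r - 0.8826)]

theorem pol_lb2 (r s : ℝ)
    (h : s ^ 2 ≤ 4.00002 * r - 3.996 * r ^ 2 - 0.0078) :
    0.19845 * (r * s) - 0.0650 * s ^ 2 - 0.0420 * r + 0.0022 ≤ 0.0745 := by
  nlinarith [sq_nonneg (s - 0.9239 * r), sq_nonneg (r - 0.8221)]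

theorem pol_lb3 (r t : ℝ) (hr : 0 < r) (ht : 0 ≤ t)
    (h : t ^ 2 ≤ 4.00002 * r - 3.996 * r ^ 2 - 0.0078) :
    -(0.1 * (r * t)) - 0.065 * t ^ 2 - 0.0420 * r + 0.0449 * r ^ 2 + 0.0046 * t + 0.0025 ≤
      0.0745 := by
  nlinarith [sq_nonneg (t - 1), mul_nonneg hr.le ht]

end Pool.Agent.HM.H46
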