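import Mathlib
import Pool.Agent.Helper49_HM.Dyn

/-! Squad HM, module INIT. -/

namespace Pool.Agent.HM.H46

open Complex Set Topology

noncomputable section

theorem cr_eq (z w : ℂ) : cr z w = z.re * w.im - z.im * w.re := by
  unfold cr
  simp
  ring

theorem nsq (z : ℂ) : ‖z‖ ^ 2 = z.re ^ 2 + z.im ^ 2 := by
  rw [Complex.sq_norm, Complex.normSq_apply]
  ring

theorem vA_re (m : Fin 3 → ℝ) (x y : ℂ) : (vA m x y).re = y.re + w1 m * x.re := by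
  simp [vA]
theorem vA_im (m : Fin 3 → ℝ) (x y : ℂ) : (vA m x y).im = y.im + w1 m * x.im := by
  simp [vA]
theorem vB_re (m : Fin 3 → ℝ) (x y : ℂ) : (vB m x y).re = y.re - w0 m * x.re := by
  simp [vB]
theorem vB_im (m : Fin 3 → ℝ) (x y : ℂ) : (vB m x y).im = y.im - w0 m * x.im := by
  simp [vB]

theorem kin (m : Fin 3 → ℝ) (hm : ∀ i, 0 < m i) (x y : ℂ) :
    k1 m * ‖x‖ ^ 2 + k2 m * ‖y‖ ^ 2 =
      (m 0 * m 1 * ‖x‖ ^ 2 + m 0 * m 2 * ‖vA m x y‖ ^ 2 + m 1 * m 2 * ‖vB m x y‖ ^ 2) / mT m := by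
  have h0 := hm 0
  have h1 := hm 1
  have h2 := hm 2
  have h01 : m 0 + m 1 ≠ 0 := by positivity
  have hT : m 0 + m 1 + m 2 ≠ 0 := by positivity
  rw [nsq x, nsq y, nsq (vA m x y), nsq (vB m x y), vA_re, vA_im, vB_re, vB_im]
  unfold k1 k2 mT w0 w1
  field_simp
  ring

theorem ang (m : Fin 3 → ℝ) (hm : ∀ i, 0 < m i) (x y x' y' : ℂ) :
    k1 m * cr x x' + k2 m * cr y y' =
      (m 0 * m 1 * cr x x' + m 0 * m 2 * cr (vA m x y) (vA m x' y') +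
        m 1 * m 2 * cr (vB m x y) (vB m x' y')) / mT m := by
  have h0 := hm 0
  have h1 := hm 1
  have h2 := hm 2
  have h01 : m 0 + m 1 ≠ 0 := by positivity
  have hT : m 0 + m 1 + m 2 ≠ 0 := by positivity
  simp only [cr_eq, vA_re, vA_im, vB_re, vB_im]
  unfold k1 k2 mT w0 w1
  field_simp
  ring

theorem exm_pos (m : Fin 3 → ℝ) (hm : ∀ i, 0 < m i) : ∀ i, 0 < exm m i := by
  intro i
  fin_cases i
  · exact hm 0
  · exact hm 2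
  · exact hm 1

theorem exm0 (m : Fin 3 → ℝ) : exm m 0 = m 0 := rfl
theorem exm1 (m : Fin 3 → ℝ) : exm m 1 = m 2 := rfl
theorem exm2 (m : Fin 3 → ℝ) : exm m 2 = m 1 := rfl

theorem exm_exm (m : Fin 3 → ℝ) : exm (exm m) = m := by
  funext i
  fin_cases i <;> rfl

theorem w_add (m : Fin 3 → ℝ) (hm : ∀ i, 0 < m i) : w0 m + w1 m = 1 := by
  have h0 := hm 0
  have h1 := hm 1
  unfold w0 w1
  field_simp

/-- new `vA` is the old `ρ` -/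
theorem ex_vA (m : Fin 3 → ℝ) (x y : ℂ) :
    vA (exm m) (exv m (x, y)).1 (exv m (x, y)).2 = x := by
  show (x - (w1 (exm m) : ℂ) * vA m x y) + (w1 (exm m) : ℂ) * vA m x y = x
  ring

/-- new `vB` is minus the old `vB` -/
theorem ex_vB (m : Fin 3 → ℝ) (hm : ∀ i, 0 < m i) (x y : ℂ) :
    vB (exm m) (exv m (x, y)).1 (exv m (x, y)).2 = -vB m x y := by
  show (x - (w1 (exm m) : ℂ) * vA m x y) - (w0 (exm m) : ℂ) * vA m x y = _
  have h1 : ((w0 (exm m) : ℝ) : ℂ) + ((w1 (exm m) : ℝ) : ℂ) = 1 := by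
    rw [← Complex.ofReal_add, w_add _ (exm_pos m hm), Complex.ofReal_one]
  have h2 : ((w0 m : ℝ) : ℂ) + ((w1 m : ℝ) : ℂ) = 1 := by
    rw [← Complex.ofReal_add, w_add _ hm, Complex.ofReal_one]
  have h3 : (x - (w1 (exm m) : ℂ) * vA m x y) - (w0 (exm m) : ℂ) * vA m x y =
      x - ((w0 (exm m) : ℂ) + (w1 (exm m) : ℂ)) * vA m x y := by ring
  rw [h3, h1]
  unfold vA vB
  have h4 : (w1 m : ℂ) = 1 - (w0 m : ℂ) := by rw [← h2]; ring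
  rw [h4]
  ring

theorem cr_neg (z w : ℂ) : cr (-z) (-w) = cr z w := by
  rw [cr_eq, cr_eq]
  simp

theorem mT_exm (m : Fin 3 → ℝ) : mT (exm m) = mT m := by
  unfold mT
  rw [exm0, exm1, exm2]
  ring

theorem lev_exj (m : Fin 3 → ℝ) (hm : ∀ i, 0 < m i) (X : JS) (h : Lev m X) :
    Lev (exm m) (exj m X) := by
  obtain ⟨ρ, lam, ρ', ν⟩ := X
  obtain ⟨⟨f1, f2, f3⟩, hE, hJ⟩ := h
  have e1 : (exj m (ρ, lam, ρ', ν)).1 = vA m ρ lam := rfl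
  have e2 : (exj m (ρ, lam, ρ', ν)).2.1 = (exv m (ρ, lam)).2 := rfl
  have a1 : vA (exm m) (exj m (ρ, lam, ρ', ν)).1 (exj m (ρ, lam, ρ', ν)).2.1 = ρ :=
    ex_vA m ρ lam
  have a2 : vB (exm m) (exj m (ρ, lam, ρ', ν)).1 (exj m (ρ, lam, ρ', ν)).2.1 = -vB m ρ lam :=
    ex_vB m hm ρ lam
  have a3 : vA (exm m) (exj m (ρ, lam, ρ', ν)).2.2.1 (exj m (ρ, lam, ρ', ν)).2.2.2 = ρ' :=
    ex_vA m ρ' ν
  have a4 : vB (exm m) (exj m (ρ, lam, ρ', ν)).2.2.1 (exj m (ρ, lam, ρ', ν)).2.2.2 = -vB m ρ' ν :=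
    ex_vB m hm ρ' ν
  have a5 : (exj m (ρ, lam, ρ', ν)).2.2.1 = vA m ρ' ν := rfl
  refine ⟨⟨?_, ?_, ?_⟩, ?_, ?_⟩
  · rw [e1]
    exact f2
  · rw [a1]
    exact f1
  · rw [a2]
    exact neg_ne_zero.2 f3
  · have h1 := kin (exm m) (exm_pos m hm) (exj m (ρ, lam, ρ', ν)).2.2.1
      (exj m (ρ, lam, ρ', ν)).2.2.2
    have h2 := kin m hm ρ' ν
    rw [a3, a4, a5, norm_neg, exm0, exm1, exm2, mT_exm] at h1
    unfold JE at hE ⊢
    rw [a1, a2, e1, norm_neg, exm0, exm1, exm2, a5]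
    have hE' : k1 m / 2 * ‖ρ'‖ ^ 2 + k2 m / 2 * ‖ν‖ ^ 2 - m 0 * m 1 / ‖ρ‖ -
      m 0 * m 2 / ‖vA m ρ lam‖ - m 1 * m 2 / ‖vB m ρ lam‖ = -1 := hE
    have h3 : (m 0 * m 2 * ‖vA m ρ' ν‖ ^ 2 + m 0 * m 1 * ‖ρ'‖ ^ 2 + m 2 * m 1 * ‖vB m ρ' ν‖ ^ 2) /
        mT m = (m 0 * m 1 * ‖ρ'‖ ^ 2 + m 0 * m 2 * ‖vA m ρ' ν‖ ^ 2 + m 1 * m 2 * ‖vB m ρ' ν‖ ^ 2) /
        mT m := by ring
    rw [h3, ← h2] at h1
    rw [mul_comm (m 2) (m 1)]
    linarith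
  · have h1 := ang (exm m) (exm_pos m hm) (exj m (ρ, lam, ρ', ν)).1 (exj m (ρ, lam, ρ', ν)).2.1
      (exj m (ρ, lam, ρ', ν)).2.2.1 (exj m (ρ, lam, ρ', ν)).2.2.2
    have h2 := ang m hm ρ lam ρ' ν
    rw [a1, a2, a3, a4, cr_neg, e1, a5, exm0, exm1, exm2, mT_exm] at h1
    unfold JMu at hJ ⊢
    rw [e1, a5, h1]
    have h3 : (m 0 * m 2 * cr (vA m ρ lam) (vA m ρ' ν) + m 0 * m 1 * cr ρ ρ' +
        m 2 * m 1 * cr (vB m ρ lam) (vB m ρ' ν)) / mT m =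
        (m 0 * m 1 * cr ρ ρ' + m 0 * m 2 * cr (vA m ρ lam) (vA m ρ' ν) +
        m 1 * m 2 * cr (vB m ρ lam) (vB m ρ' ν)) / mT m := by ring
    rw [h3, ← h2]
    exact hJ

theorem lev_initS (m : Fin 3 → ℝ) (hm : ∀ i, 0 < m i) (ζ : ℂ) (a : ℝ) (ν : ℂ)
    (hA : vA m 1 ζ ≠ 0) (hB : vB m 1 ζ ≠ 0) : Lev m (initS m ζ a ν) ∧
      ∃ r : ℝ, 0 < r ∧ (initS m ζ a ν).1 = r ∧ (initS m ζ a ν).2.1 = r * ζ := by
  have h0 := hm 0
  have h1 := hm 1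
  have h2 := hm 2
  have hk1 : 0 < k1 m := by unfold k1; positivity
  have hk2 : 0 < k2 m := by unfold k2; positivity
  set b : ℝ := -(k2 m / k1 m) * cr ζ ν with hb
  set K : ℝ := k1 m / 2 * (a ^ 2 + b ^ 2) + k2 m / 2 * ‖ν‖ ^ 2 with hK
  set U : ℝ := m 0 * m 1 + m 0 * m 2 / ‖vA m 1 ζ‖ + m 1 * m 2 / ‖vB m 1 ζ‖ with hU
  have hKn : 0 ≤ K := by positivity
  have hnA : 0 < ‖vA m 1 ζ‖ := norm_pos_iff.2 hA
  have hnB : 0 < ‖vB m 1 ζ‖ := norm_pos_iff.2 hB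
  have hUp : 0 < U := by positivity
  set r : ℝ := U / (1 + K) with hr
  have hrp : 0 < r := by positivity
  have hX : initS m ζ a ν = ((r : ℂ), (r : ℂ) * ζ, (a : ℂ) + I * b, ν) := rfl
  have evA : vA m (r : ℂ) ((r : ℂ) * ζ) = r * vA m 1 ζ := by unfold vA; ring
  have evB : vB m (r : ℂ) ((r : ℂ) * ζ) = r * vB m 1 ζ := by unfold vB; ring
  have hr0 : (r : ℂ) ≠ 0 := by exact_mod_cast hrp.ne'
  refine ⟨⟨⟨?_, ?_, ?_⟩, ?_, ?_⟩, r, hrp, rfl, rfl⟩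
  · exact hr0
  · rw [hX]
    show vA m (r : ℂ) ((r : ℂ) * ζ) ≠ 0
    rw [evA]
    exact mul_ne_zero hr0 hA
  · rw [hX]
    show vB m (r : ℂ) ((r : ℂ) * ζ) ≠ 0
    rw [evB]
    exact mul_ne_zero hr0 hB
  · rw [hX]
    show k1 m / 2 * ‖(a : ℂ) + I * b‖ ^ 2 + k2 m / 2 * ‖ν‖ ^ 2 - m 0 * m 1 / ‖(r : ℂ)‖ -
      m 0 * m 2 / ‖vA m (r : ℂ) ((r : ℂ) * ζ)‖ - m 1 * m 2 / ‖vB m (r : ℂ) ((r : ℂ) * ζ)‖ = -1
    rw [evA, evB, norm_mul, norm_mul, Complex.norm_real, Real.norm_of_nonneg hrp.le, nsq]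
    have e1 : ((a : ℂ) + I * b).re = a := by simp
    have e2 : ((a : ℂ) + I * b).im = b := by simp
    rw [e1, e2]
    have e3 : U / r = 1 + K := by
      rw [hr]
      field_simp
    have e4 : U / r = m 0 * m 1 / r + m 0 * m 2 / (r * ‖vA m 1 ζ‖) +
        m 1 * m 2 / (r * ‖vB m 1 ζ‖) := by
      rw [hU]
      field_simp
    linarith
  · rw [hX]
    show k1 m * cr (r : ℂ) ((a : ℂ) + I * b) + k2 m * cr ((r : ℂ) * ζ) ν = 0
    have e1 : cr (r : ℂ) ((a : ℂ) + I * b) = r * b := by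
      rw [cr_eq]
      simp
    have e2 : cr ((r : ℂ) * ζ) ν = r * cr ζ ν := by
      rw [cr_eq, cr_eq]
      simp
      ring
    rw [e1, e2, hb]
    field_simp
    ring

theorem init : InitStmt := by
  refine ⟨1 / 10, by norm_num, fun m hm1 ξ hξ => ?_⟩
  have hm : ∀ i, 0 < m i := fun i => by
    have := (abs_lt.1 (hm1 i)).1
    linarith
  have hb := fun i => abs_lt.1 (hm1 i)
  have hx : ∀ i, -1 ≤ ξ i ∧ ξ i ≤ 1 := fun i => ⟨hξ.1 i, hξ.2 i⟩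
  obtain ⟨x0, x0'⟩ := hx 0
  obtain ⟨x1, x1'⟩ := hx 1
  obtain ⟨x2, x2'⟩ := hx 2
  obtain ⟨x3, x3'⟩ := hx 3
  refine ⟨?_, ?_⟩
  · apply (lev_initS m hm _ _ _ _ _).1
    · intro h
      have h1 := congrArg Complex.im h
      rw [vA_im] at h1
      simp at h1
      linarith
    · intro h
      have h1 := congrArg Complex.im h
      rw [vB_im] at h1
      simp at h1
      linarith
  · set μ := exm m with hμ
    have hμp := exm_pos m hm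
    have hw1 : w1 μ ∈ Ioo (0.4 : ℝ) 0.6 := by
      have h0 := hb 0
      have h2 := hb 2
      unfold w1
      rw [hμ, exm0, exm1]
      have hpos : 0 < m 0 + m 2 := by linarith [hm 0, hm 2]
      constructor
      · rw [lt_div_iff₀ hpos]
        linarith [h0.1, h0.2, h2.1, h2.2]
      · rw [div_lt_iff₀ hpos]
        linarith [h0.1, h0.2, h2.1, h2.2]
    have hw0 : w0 μ ∈ Ioo (0.4 : ℝ) 0.6 := by
      have := w_add μ hμp
      constructor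
      · linarith [hw1.2]
      · linarith [hw1.1]
    obtain ⟨z, a, ν, hz1, hform⟩ : ∃ (z a : ℝ) (ν : ℂ), |z| ≤ 1e-3 ∧
        initB0 μ ξ = initS μ (⟨z, 0⟩ : ℂ) a ν := by
      refine ⟨_, _, _, ?_, rfl⟩
      rw [abs_le]
      constructor <;> norm_num <;> linarith
    obtain ⟨hz2, hz3⟩ := abs_le.1 hz1
    have hB0 := lev_initS μ hμp (⟨z, 0⟩ : ℂ) a ν (by
        intro h
        have h1 := congrArg Complex.re h
        rw [vA_re] at h1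
        simp at h1
        linarith [hw1.1]) (by
        intro h
        have h1 := congrArg Complex.re h
        rw [vB_re] at h1
        simp at h1
        linarith [hw0.1])
    obtain ⟨hL, r, hr, er1, er2⟩ := hB0
    rw [← hform] at hL er1 er2
    have hL' : Lev μ (initB0 μ ξ) := hL
    have hr1 : (initB0 μ ξ).1 = r := er1
    have hr2 : (initB0 μ ξ).2.1 = r * (⟨z, 0⟩ : ℂ) := er2
    have hlev := lev_exj μ hμp _ hL'
    rw [hμ, exm_exm] at hlev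
    refine ⟨hlev, z + w1 μ, ⟨by linarith [hw1.1], by linarith [hw1.2]⟩, ?_⟩
    have hv : vA m (initB m ξ).1 (initB m ξ).2.1 = (initB0 μ ξ).1 := by
      have := ex_vA μ (initB0 μ ξ).1 (initB0 μ ξ).2.1
      rw [hμ, exm_exm] at this
      exact this
    have h1 : (initB m ξ).1 = vA μ (initB0 μ ξ).1 (initB0 μ ξ).2.1 := rfl
    have hr0 : (r : ℂ) ≠ 0 := by exact_mod_cast hr.ne'
    unfold zc
    rw [hv, h1, hr1, hr2]
    have h2 : vA μ (r : ℂ) (r * (⟨z, 0⟩ : ℂ)) = r * ((z : ℂ) + (w1 μ : ℂ)) := by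
      have : (⟨z, 0⟩ : ℂ) = (z : ℂ) := rfl
      rw [this]
      unfold vA
      ring
    rw [h2, mul_div_cancel_left₀ _ hr0]
    push_cast
    rfl

end

end Pool.Agent.HM.H46
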